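import Mathlib

set_option autoImplicit false

/-! MP_e35cb8_ag (S00177), module G: general coordinates. -/

open MvPolynomial

namespace Pool.Agent.PLG

/-- the coordinate ring of the plane -/
abbrev A2 := MvPolynomial (Fin 2) ℂ

/-- directional derivative of `f` at `p` -/
noncomputable def DD (ξ : Fin 2 → ℂ) (f : A2) (p : Fin 2 → ℂ) : ℂ :=
  ∑ j, ξ j * eval p (pderiv j f)

/-- Jacobian determinant -/
noncomputable def jac (f g : A2) : A2 := pderiv 0 f * pderiv 1 g - pderiv 1 f * pderiv 0 g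

/-- the general coordinates `x i + a_i t + b_i t^2 + e_i t^3` -/
noncomputable def xg (v : Fin 4 × Fin 3 → ℂ) (x : Fin 4 → A2) (t : A2) (i : Fin 4) : A2 :=
  x i + C (v (i, 0)) * t + C (v (i, 1)) * t ^ 2 + C (v (i, 2)) * t ^ 3

/-- the data: coordinates with coefficients in a field `K`, twelve numbers algebraically independent
over `K`, immersion and injectivity -/
structure Dat (K : Subfield ℂ) (x : Fin 4 → A2) (t : A2) (v : Fin 4 × Fin 3 → ℂ) : Prop where
  hx : ∀ i m, coeff m (x i) ∈ K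
  ht : ∀ m, coeff m t ∈ K
  hv : AlgebraicIndependent K v
  imm : ∀ (p ξ : Fin 2 → ℂ), (∀ i, DD ξ (x i) p = 0) → DD ξ t p = 0 → ξ = 0
  inj : ∀ p q : Fin 2 → ℂ, (∀ i, eval p (x i) = eval q (x i)) → eval p t = eval q t → p = q

end Pool.Agent.PLG
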