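import Pool.Agent.Helper135.PL.Iface

set_option autoImplicit false

/-! common interface: Pool.Agent.Helper135.PL.Iface -/
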