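import Pool.Agent.Helper419.PL.Defs

set_option autoImplicit false

/-! S00177 module G, lemma AUT (board job). -/

open MvPolynomial

namespace Pool.Agent.PLG


theorem exists_aut_perm (σ : Equiv.Perm (Fin 5)) :
    ∃ θ : MvPolynomial (Fin 5) ℂ ≃ₐ[ℂ] MvPolynomial (Fin 5) ℂ, ∀ i, θ (X i) = X (σ i) := by
  refine ⟨MvPolynomial.renameEquiv ℂ σ, fun i => ?_⟩
  simp

/-- adding to `X i` a polynomial `P i` which does not change under the substitution -/
theorem exists_aut_add (P : Fin 5 → MvPolynomial (Fin 5) ℂ)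
    (hP : ∀ i, aeval (fun j => X j + P j) (P i) = P i)
    (hP' : ∀ i, aeval (fun j => X j - P j) (P i) = P i) :
    ∃ θ : MvPolynomial (Fin 5) ℂ ≃ₐ[ℂ] MvPolynomial (Fin 5) ℂ, ∀ i, θ (X i) = X i + P i := by
  refine ⟨AlgEquiv.ofAlgHom (aeval (fun j => X j + P j)) (aeval (fun j => X j - P j)) ?_ ?_,
    fun i => ?_⟩
  · refine MvPolynomial.algHom_ext fun i => ?_
    simp only [AlgHom.comp_apply, aeval_X, map_sub, AlgHom.id_apply]
    rw [hP i]; ring
  · refine MvPolynomial.algHom_ext fun i => ?_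
    simp only [AlgHom.comp_apply, aeval_X, map_add, AlgHom.id_apply]
    rw [hP' i]; ring
  · simp

end Pool.Agent.PLG
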