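import Pool.Agent.Helper419.PL.Defs

set_option autoImplicit false

/-! S00177 module G, lemma CF0 (board job). -/

open MvPolynomial

namespace Pool.Agent.PLG


theorem countable_finite_ev {n : ℕ} (p : Fin n → ℂ) (f : MvPolynomial (Fin n) ℂ) :
    (aeval p f : ℂ) = eval p f := rfl

theorem countable_finite_pos {n s : ℕ} (hs : 0 < s) (I : Ideal (MvPolynomial (Fin n) ℂ))
    (g : MvPolynomial (Fin s) ℂ →ₐ[ℂ] (MvPolynomial (Fin n) ℂ ⧸ I))
    (hinj : Function.Injective g) (hint : g.IsIntegral) (c : ℂ) :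
    ∃ p : Fin n → ℂ, (∀ f ∈ I, eval p f = 0) ∧ ∀ w : MvPolynomial (Fin n) ℂ,
      Ideal.Quotient.mk I w = g (X ⟨0, hs⟩) → eval p w = c := by
  let alg : Algebra (MvPolynomial (Fin s) ℂ) (MvPolynomial (Fin n) ℂ ⧸ I) := g.toRingHom.toAlgebra
  have halg : ∀ x : MvPolynomial (Fin s) ℂ,
      algebraMap (MvPolynomial (Fin s) ℂ) (MvPolynomial (Fin n) ℂ ⧸ I) x = g x := fun _ => rfl
  have hI : Algebra.IsIntegral (MvPolynomial (Fin s) ℂ) (MvPolynomial (Fin n) ℂ ⧸ I) :=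
    algebraMap_isIntegral_iff.1 hint
  obtain ⟨M, hM⟩ : ∃ M : Ideal (MvPolynomial (Fin s) ℂ), M = vanishingIdeal ℂ {fun _ => c} :=
    ⟨_, rfl⟩
  have hMm : M.IsMaximal := isMaximal_iff_eq_vanishingIdeal_singleton.2 ⟨_, hM⟩
  obtain ⟨Q, hQm, hQ⟩ := Ideal.exists_ideal_over_maximal_of_isIntegral
    (S := MvPolynomial (Fin n) ℂ ⧸ I) M (by
      intro x hx
      rw [RingHom.mem_ker, halg] at hx
      have hx0 : x = 0 := hinj (by rw [hx, map_zero])
      rw [hx0]; exact Ideal.zero_mem _)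
  have hQ'm : (Q.comap (Ideal.Quotient.mk I)).IsMaximal :=
    Ideal.comap_isMaximal_of_surjective _ Ideal.Quotient.mk_surjective
  obtain ⟨p, hp⟩ := isMaximal_iff_eq_vanishingIdeal_singleton.1 hQ'm
  have hpe : ∀ f : MvPolynomial (Fin n) ℂ, Ideal.Quotient.mk I f ∈ Q → eval p f = 0 := by
    intro f hf
    have h1 : f ∈ Q.comap (Ideal.Quotient.mk I) := hf
    rw [hp, mem_vanishingIdeal_iff] at h1
    have h2 := h1 p rfl
    rwa [countable_finite_ev] at h2
  refine ⟨p, fun f hf => hpe f ?_, fun w hw => ?_⟩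
  · rw [Ideal.Quotient.eq_zero_iff_mem.2 hf]; exact Q.zero_mem
  · have h1 : (X ⟨0, hs⟩ - C c : MvPolynomial (Fin s) ℂ) ∈ M := by
      rw [hM, mem_vanishingIdeal_iff]
      intro x hx
      rw [Set.mem_singleton_iff.1 hx]
      simp
    rw [← hQ, Ideal.mem_comap, halg, map_sub] at h1
    have h2 : g (C c) = Ideal.Quotient.mk I (C c) := by
      have h3 : (C c : MvPolynomial (Fin s) ℂ) = algebraMap ℂ _ c := rfl
      rw [h3, AlgHom.commutes]
      rfl
    rw [h2, ← hw, ← map_sub] at h1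
    have h4 := hpe _ h1
    rw [map_sub, eval_C] at h4
    exact sub_eq_zero.1 h4

theorem countable_finite_zero {n : ℕ} (I : Ideal (MvPolynomial (Fin n) ℂ))
    (g : MvPolynomial (Fin 0) ℂ →ₐ[ℂ] (MvPolynomial (Fin n) ℂ ⧸ I))
    (hint : g.IsIntegral) :
    {p : Fin n → ℂ | ∀ f ∈ I, eval p f = 0}.Finite := by
  have h1 : ((g.toRingHom).comp ((isEmptyAlgEquiv ℂ (Fin 0)).symm :
      ℂ ≃ₐ[ℂ] MvPolynomial (Fin 0) ℂ).toRingEquiv.toRingHom).IsIntegral :=
    RingHom.IsIntegral.trans _ _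
      (RingHom.isIntegral_of_surjective _ ((isEmptyAlgEquiv ℂ (Fin 0)).symm.surjective)) hint
  have h2 : ((g.toRingHom).comp ((isEmptyAlgEquiv ℂ (Fin 0)).symm :
      ℂ ≃ₐ[ℂ] MvPolynomial (Fin 0) ℂ).toRingEquiv.toRingHom)
      = algebraMap ℂ (MvPolynomial (Fin n) ℂ ⧸ I) := by
    ext c
    show g ((isEmptyAlgEquiv ℂ (Fin 0)).symm c) = _
    have h3 : (isEmptyAlgEquiv ℂ (Fin 0)).symm c = algebraMap ℂ (MvPolynomial (Fin 0) ℂ) c :=
      AlgEquiv.commutes _ c
    rw [h3, AlgHom.commutes]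
  rw [h2] at h1
  have h3 : ∀ j : Fin n, ∃ P : Polynomial ℂ, P.Monic ∧
      Polynomial.aeval (Ideal.Quotient.mk I (X j)) P = 0 := by
    intro j
    obtain ⟨P, hP, hPe⟩ := h1 (Ideal.Quotient.mk I (X j))
    exact ⟨P, hP, hPe⟩
  choose P hP hPe using h3
  have hfin : {p : Fin n → ℂ | ∀ j, p j ∈ {z : ℂ | (P j).IsRoot z}}.Finite :=
    Set.Finite.pi' (fun j => Polynomial.finite_setOfPred_isRoot (hP j).ne_zero)
  refine hfin.subset ?_
  intro p hp j
  have h4 : Polynomial.aeval (X j : MvPolynomial (Fin n) ℂ) (P j) ∈ I := by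
    rw [← Ideal.Quotient.eq_zero_iff_mem]
    have h5 := Polynomial.aeval_algHom_apply (Ideal.Quotient.mkₐ ℂ I)
      (X j : MvPolynomial (Fin n) ℂ) (P j)
    rw [Ideal.Quotient.mkₐ_eq_mk] at h5
    rw [← h5]
    exact hPe j
  have h6 := hp _ h4
  have h7 := Polynomial.aeval_algHom_apply (MvPolynomial.aeval p : MvPolynomial (Fin n) ℂ →ₐ[ℂ] ℂ)
      (X j : MvPolynomial (Fin n) ℂ) (P j)
  rw [countable_finite_ev, countable_finite_ev, h6, eval_X] at h7
  show (P j).IsRoot (p j)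
  rw [Polynomial.IsRoot.def, ← Polynomial.coe_aeval_eq_eval]
  exact h7

theorem countable_finite {n : ℕ} (I : Ideal (MvPolynomial (Fin n) ℂ))
    (h : {p : Fin n → ℂ | ∀ f ∈ I, eval p f = 0}.Countable) :
    {p : Fin n → ℂ | ∀ f ∈ I, eval p f = 0}.Finite := by
  by_cases hI : I = ⊤
  · have h0 : {p : Fin n → ℂ | ∀ f ∈ I, eval p f = 0} = ∅ := by
      ext p
      simp only [Set.mem_ofPred_eq, Set.mem_empty_iff_false, iff_false]
      intro hp
      have h1 := hp 1 (by rw [hI]; trivial)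
      rw [map_one] at h1
      exact one_ne_zero h1
    rw [h0]; exact Set.finite_empty
  have hnt : Nontrivial (MvPolynomial (Fin n) ℂ ⧸ I) := Ideal.Quotient.nontrivial_iff.2 hI
  obtain ⟨s, g, hinj, hint⟩ := exists_integral_inj_algHom_of_fg ℂ (MvPolynomial (Fin n) ℂ ⧸ I)
  rcases Nat.eq_zero_or_pos s with hs | hs
  · subst hs
    exact countable_finite_zero I g hint
  · exfalso
    choose F hF1 hF2 using countable_finite_pos hs I g hinj hint
    obtain ⟨w, hw⟩ := Ideal.Quotient.mk_surjective (I := I) (g (X ⟨0, hs⟩))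
    have hFi : Function.Injective F := by
      intro c c' hcc
      rw [← hF2 c w hw, ← hF2 c' w hw, hcc]
    have h1 : (F ⁻¹' {p : Fin n → ℂ | ∀ f ∈ I, eval p f = 0}).Countable :=
      h.preimage_of_injOn hFi.injOn
    have h2 : F ⁻¹' {p : Fin n → ℂ | ∀ f ∈ I, eval p f = 0} = Set.univ := by
      ext c
      simp only [Set.mem_preimage, Set.mem_univ, iff_true]
      exact hF1 c
    rw [h2] at h1
    exact not_countable_complex h1

end Pool.Agent.PLG
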