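import Pool.Agent.Helper419.PL.Defs
import Pool.Agent.Helper419.PL.S_CF0

set_option autoImplicit false

/-! S00177 module G, lemma CF (board job). -/

open MvPolynomial

namespace Pool.Agent.PLG


theorem double_finite_span {n : ℕ} (G : Set (MvPolynomial (Fin n) ℂ)) (P : Fin n → ℂ) :
    (∀ f ∈ Ideal.span G, eval P f = 0) ↔ ∀ g ∈ G, eval P g = 0 := by
  constructor
  · intro h g hg
    exact h g (Ideal.subset_span hg)
  · intro h
    have h1 : Ideal.span G ≤ RingHom.ker (eval P) := Ideal.span_le.mpr (fun g hg => h g hg)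
    intro f hf
    exact h1 hf

theorem double_finite (w : Fin 4 → A2)
    (h : {p : Fin 2 → ℂ | ∃ q, q ≠ p ∧ ∀ i, eval p (w i) = eval q (w i)}.Countable) :
    {p : Fin 2 → ℂ | ∃ q, q ≠ p ∧ ∀ i, eval p (w i) = eval q (w i)}.Finite := by
  classical
  obtain ⟨S, hS⟩ : ∃ S : Set (Fin 2 → ℂ),
    S = {p : Fin 2 → ℂ | ∃ q, q ≠ p ∧ ∀ i, eval p (w i) = eval q (w i)} := ⟨_, rfl⟩
  rw [← hS] at h ⊢
  let a : Fin 2 → Fin 5 := ![0, 1]
  let b : Fin 2 → Fin 5 := ![2, 3]
  let G : Fin 2 → Set (MvPolynomial (Fin 5) ℂ) := fun j =>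
    Set.range (fun i : Fin 4 => rename a (w i) - rename b (w i)) ∪
      {(X (a j) - X (b j)) * X 4 - 1}
  let Z : Fin 2 → Set (Fin 5 → ℂ) := fun j => {P | ∀ f ∈ Ideal.span (G j), eval P f = 0}
  have hZ : ∀ (j : Fin 2) (P : Fin 5 → ℂ), P ∈ Z j ↔
      ((∀ i, eval (P ∘ a) (w i) = eval (P ∘ b) (w i)) ∧ (P (a j) - P (b j)) * P 4 = 1) := by
    intro j P
    show (∀ f ∈ Ideal.span (G j), eval P f = 0) ↔ _
    rw [double_finite_span]
    constructor
    · intro h1
      constructor
      · intro i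
        have h2 := h1 _ (Or.inl ⟨i, rfl⟩)
        rw [map_sub, eval_rename, eval_rename] at h2
        exact sub_eq_zero.mp h2
      · have h2 := h1 _ (Or.inr rfl)
        rw [map_sub, map_mul, map_sub, eval_X, eval_X, eval_X, map_one] at h2
        exact sub_eq_zero.mp h2
    · rintro ⟨h1, h2⟩ g (⟨i, rfl⟩ | hg)
      · show eval P (rename a (w i) - rename b (w i)) = 0
        rw [map_sub, eval_rename, eval_rename, h1 i, sub_self]
      · rw [Set.mem_singleton_iff] at hg
        rw [hg, map_sub, map_mul, map_sub, eval_X, eval_X, eval_X, map_one, h2, sub_self]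
  have hne : ∀ (j : Fin 2) (P : Fin 5 → ℂ), P ∈ Z j → P ∘ a ≠ P ∘ b := by
    intro j P hP heq
    have h1 := ((hZ j P).mp hP).2
    have h2 : P (a j) = P (b j) := congrFun heq j
    rw [h2, sub_self, zero_mul] at h1
    exact zero_ne_one h1
  have hfin : ∀ j : Fin 2, (Z j).Finite := by
    intro j
    apply countable_finite
    have hmaps : Set.MapsTo (fun P : Fin 5 → ℂ => (P ∘ a, P ∘ b)) (Z j) (S ×ˢ S) := by
      intro P hP
      have h1 := ((hZ j P).mp hP).1
      have h2 := hne j P hP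
      rw [hS]
      exact ⟨⟨P ∘ b, h2.symm, h1⟩, ⟨P ∘ a, h2, fun i => (h1 i).symm⟩⟩
    have hinj : Set.InjOn (fun P : Fin 5 → ℂ => (P ∘ a, P ∘ b)) (Z j) := by
      intro P hP Q hQ hPQ
      have h1 : P ∘ a = Q ∘ a := congrArg Prod.fst hPQ
      have h2 : P ∘ b = Q ∘ b := congrArg Prod.snd hPQ
      have h3 := ((hZ j P).mp hP).2
      have h4 := ((hZ j Q).mp hQ).2
      have e0 : P 0 = Q 0 := congrFun h1 0
      have e1 : P 1 = Q 1 := congrFun h1 1
      have e2 : P 2 = Q 2 := congrFun h2 0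
      have e3 : P 3 = Q 3 := congrFun h2 1
      have e5 : P (a j) = Q (a j) := congrFun h1 j
      have e6 : P (b j) = Q (b j) := congrFun h2 j
      have e4 : P 4 = Q 4 := by
        rw [e5, e6] at h3
        have h5 : Q (a j) - Q (b j) ≠ 0 := by
          intro h6
          rw [h6, zero_mul] at h3
          exact zero_ne_one h3
        exact mul_left_cancel₀ h5 (h3.trans h4.symm)
      funext k
      fin_cases k
      · exact e0
      · exact e1
      · exact e2
      · exact e3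
      · exact e4
    exact hmaps.countable_of_injOn hinj (h.prod h)
  have hsub : S ⊆ ⋃ j : Fin 2, (fun P : Fin 5 → ℂ => P ∘ a) '' Z j := by
    intro p hp
    rw [hS] at hp
    obtain ⟨q, hqp, hq⟩ := hp
    obtain ⟨j, hj⟩ : ∃ j, p j ≠ q j := by
      by_contra hcon
      exact hqp (funext fun j => by
        by_contra h1
        exact hcon ⟨j, fun h2 => h1 h2.symm⟩)
    rw [Set.mem_iUnion]
    refine ⟨j, ![p 0, p 1, q 0, q 1, (p j - q j)⁻¹], ?_, ?_⟩
    · rw [hZ]
      have ha : (![p 0, p 1, q 0, q 1, (p j - q j)⁻¹] : Fin 5 → ℂ) ∘ a = p := by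
        funext k
        fin_cases k <;> rfl
      have hb : (![p 0, p 1, q 0, q 1, (p j - q j)⁻¹] : Fin 5 → ℂ) ∘ b = q := by
        funext k
        fin_cases k <;> rfl
      rw [ha, hb]
      refine ⟨hq, ?_⟩
      have ha' : (![p 0, p 1, q 0, q 1, (p j - q j)⁻¹] : Fin 5 → ℂ) (a j) = p j := congrFun ha j
      have hb' : (![p 0, p 1, q 0, q 1, (p j - q j)⁻¹] : Fin 5 → ℂ) (b j) = q j := congrFun hb j
      rw [ha', hb']
      show (p j - q j) * (p j - q j)⁻¹ = 1
      exact mul_inv_cancel₀ (sub_ne_zero.mpr hj)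
    · funext k
      fin_cases k <;> rfl
  exact (Set.finite_iUnion (fun j => (hfin j).image _)).subset hsub

end Pool.Agent.PLG
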