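import Pool.Agent.Helper419.PL.Defs

set_option autoImplicit false

/-! S00177 module G, lemma CK (board job). -/

open MvPolynomial

namespace Pool.Agent.PLG


theorem exists_K (S : Finset ℂ) : ∃ K : Subfield ℂ, (K : Set ℂ).Countable ∧ ∀ s ∈ S, s ∈ K := by
  refine ⟨Subfield.closure (S : Set ℂ), ?_, fun s hs => Subfield.subset_closure (Finset.mem_coe.mpr hs)⟩
  have h := Subfield.cardinalMk_closure_le_max (S : Set ℂ)
  have h2 : max (Cardinal.mk (S : Set ℂ)) Cardinal.aleph0 ≤ Cardinal.aleph0 := by
    refine max_le ?_ le_rfl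
    exact (Cardinal.lt_aleph0_of_finite _).le
  rw [← Cardinal.le_aleph0_iff_set_countable]
  exact h.trans h2

end Pool.Agent.PLG
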