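import Pool.Agent.Helper419.PL.Defs

set_option autoImplicit false

/-! S00177 module G, lemma DEP (board job). -/

open MvPolynomial

namespace Pool.Agent.PLG


theorem exists_rel (a b c : A2) :
    ∃ F : MvPolynomial (Fin 3) ℂ, F ≠ 0 ∧ aeval ![a, b, c] F = (0 : A2) := by
  by_contra hcon
  push Not at hcon
  have hind : AlgebraicIndependent ℂ (![a, b, c] : Fin 3 → A2) := by
    rw [algebraicIndependent_iff]
    intro p hp
    by_contra hp0
    exact hcon p hp0 hp
  have h1 := hind.cardinalMk_le_trdeg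
  rw [MvPolynomial.trdeg_of_isDomain] at h1
  simp at h1
  have h2 : ((3 : ℕ) : Cardinal.{0}) ≤ ((2 : ℕ) : Cardinal.{0}) := by exact_mod_cast h1
  rw [Nat.cast_le] at h2
  omega


end Pool.Agent.PLG
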