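import Pool.Agent.Helper419.PL.Defs

set_option autoImplicit false

/-! S00177 module G, lemma Ga (board job). -/

open MvPolynomial

namespace Pool.Agent.PLG


/-- weight of a monomial -/
def ga_wt (m : Fin 3 →₀ ℕ) : ℕ := 3 * m 0 + 3 * m 1 + m 2

theorem ga_term {B : Type*} [CommRing B] (U0 U1 : Polynomial B) (h0 : U0.natDegree ≤ 3)
    (h1 : U1.natDegree ≤ 3) (c : B) (m : Fin 3 →₀ ℕ) (M : ℕ) (hM : ga_wt m ≤ M) :
    (Polynomial.C c * ∏ i, (![U0, U1, Polynomial.X] : Fin 3 → Polynomial B) i ^ m i).natDegree ≤ M ∧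
    (Polynomial.C c * ∏ i, (![U0, U1, Polynomial.X] : Fin 3 → Polynomial B) i ^ m i).coeff M =
      if ga_wt m = M then c * (U0.coeff 3 ^ m 0 * U1.coeff 3 ^ m 1) else 0 := by
  have e : ∏ i, (![U0, U1, Polynomial.X] : Fin 3 → Polynomial B) i ^ m i =
      U0 ^ m 0 * U1 ^ m 1 * Polynomial.X ^ m 2 := by
    rw [Fin.prod_univ_three]; rfl
  rw [e]
  have d0 : (U0 ^ m 0).natDegree ≤ 3 * m 0 := by
    have := Polynomial.natDegree_pow_le_of_le (m 0) h0
    linarith
  have d1 : (U1 ^ m 1).natDegree ≤ 3 * m 1 := by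
    have := Polynomial.natDegree_pow_le_of_le (m 1) h1
    linarith
  have d2 : ((Polynomial.X : Polynomial B) ^ m 2).natDegree ≤ m 2 := Polynomial.natDegree_X_pow_le _
  have d01 : (U0 ^ m 0 * U1 ^ m 1).natDegree ≤ 3 * m 0 + 3 * m 1 := Polynomial.natDegree_mul_le_of_le d0 d1
  have d012 : (U0 ^ m 0 * U1 ^ m 1 * Polynomial.X ^ m 2).natDegree ≤ 3 * m 0 + 3 * m 1 + m 2 :=
    Polynomial.natDegree_mul_le_of_le d01 d2
  have dC : (Polynomial.C c * (U0 ^ m 0 * U1 ^ m 1 * Polynomial.X ^ m 2)).natDegree ≤ ga_wt m :=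
    (Polynomial.natDegree_C_mul_le _ _).trans d012
  refine ⟨dC.trans hM, ?_⟩
  split_ifs with hw
  · rw [← hw, Polynomial.coeff_C_mul]
    unfold ga_wt
    rw [Polynomial.coeff_mul_add_eq_of_natDegree_le d01 d2, Polynomial.coeff_mul_add_eq_of_natDegree_le d0 d1]
    have c0 : (U0 ^ m 0).coeff (3 * m 0) = U0.coeff 3 ^ m 0 := by
      have := Polynomial.coeff_pow_of_natDegree_le (m := m 0) h0
      rw [mul_comm] at this
      first | exact this | (rw [mul_comm]; exact this)
    have c1 : (U1 ^ m 1).coeff (3 * m 1) = U1.coeff 3 ^ m 1 := by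
      have := Polynomial.coeff_pow_of_natDegree_le (m := m 1) h1
      rw [mul_comm] at this
      first | exact this | (rw [mul_comm]; exact this)
    rw [c0, c1]
    simp
  · apply Polynomial.coeff_eq_zero_of_natDegree_lt
    exact lt_of_le_of_lt dC (lt_of_le_of_ne hM hw)

theorem ga_ne {K : Subfield ℂ} {v : Fin 4 × Fin 3 → ℂ}
    (hv : AlgebraicIndependent K v) (F : MvPolynomial (Fin 3) ℂ)
    (hFK : ∀ m, coeff m F ∈ K) (M : ℕ) (m0 : Fin 3 →₀ ℕ) (hm0 : m0 ∈ F.support) (hM : ga_wt m0 = M) :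
    ∑ m ∈ F.support, (if ga_wt m = M then coeff m F * ((-(v (0, 2))) ^ m 0 * (-(v (1, 2))) ^ m 1) else 0) ≠ 0 := by
  have hv2 : AlgebraicIndependent K (v ∘ (![((0 : Fin 4), (2 : Fin 3)), (1, 2)] : Fin 2 → Fin 4 × Fin 3)) := by
    apply hv.comp
    intro a b hab
    fin_cases a <;> fin_cases b <;> simp_all
  obtain ⟨κ, hκ⟩ : ∃ κ : (Fin 3 →₀ ℕ) → K, ∀ m, (κ m : ℂ) = coeff m F := ⟨fun m => ⟨_, hFK m⟩, fun m => rfl⟩
  obtain ⟨ex, hex⟩ : ∃ ex : (Fin 3 →₀ ℕ) → (Fin 2 →₀ ℕ), ex = fun m =>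
    Finsupp.single 0 (m 0) + Finsupp.single 1 (m 1) := ⟨_, rfl⟩
  obtain ⟨G, hG⟩ : ∃ G : MvPolynomial (Fin 2) K, G = ∑ m ∈ F.support.filter (fun m => ga_wt m = M),
    monomial (ex m) (κ m * (-1) ^ (m 0 + m 1)) := ⟨_, rfl⟩
  have hexinj : ∀ m m' : Fin 3 →₀ ℕ, ga_wt m = M → ga_wt m' = M → ex m = ex m' → m = m' := by
    intro m m' hm hm' he
    rw [hex] at he
    have h0 := DFunLike.congr_fun he 0
    have h1 := DFunLike.congr_fun he 1
    simp at h0 h1
    unfold ga_wt at hm hm'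
    ext i
    fin_cases i
    · exact h0
    · exact h1
    · change m 2 = m' 2
      omega
  have hG0 : G ≠ 0 := by
    intro h
    have h1 : coeff (ex m0) G = κ m0 * (-1) ^ (m0 0 + m0 1) := by
      rw [hG, coeff_sum]
      rw [Finset.sum_eq_single m0]
      · rw [coeff_monomial, if_pos rfl]
      · intro b hb hne
        rw [Finset.mem_filter] at hb
        rw [coeff_monomial, if_neg]
        intro he
        exact hne (hexinj b m0 hb.2 hM he)
      · intro hb
        exact absurd (Finset.mem_filter.2 ⟨hm0, hM⟩) hb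
    rw [h, coeff_zero] at h1
    have h2 : κ m0 ≠ 0 := by
      intro h3
      have := hκ m0
      rw [h3] at this
      exact (mem_support_iff.1 hm0) this.symm
    exact (mul_ne_zero h2 (pow_ne_zero _ (by norm_num))) h1.symm
  have hne : aeval (v ∘ (![((0 : Fin 4), (2 : Fin 3)), (1, 2)] : Fin 2 → Fin 4 × Fin 3)) G ≠ 0 := by
    intro h
    exact hG0 (hv2.eq_zero_of_aeval_eq_zero G h)
  intro hsum
  apply hne
  rw [← hsum, hG, map_sum, Finset.sum_filter]
  apply Finset.sum_congr rfl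
  intro m _
  split_ifs with hw
  · rw [aeval_monomial, hex]
    rw [Finsupp.prod_fintype _ _ (by intro i; simp)]
    rw [Fin.prod_univ_two]
    simp only [Function.comp, Finsupp.add_apply]
    have e3 : (algebraMap K ℂ) (κ m * (-1) ^ (m 0 + m 1)) = coeff m F * (-1) ^ (m 0 + m 1) := by
      rw [map_mul, ← hκ m]
      simp
      rfl
    rw [e3]
    simp
    rw [neg_pow (v (0, 2)), neg_pow (v (1, 2)), pow_add]
    ring
  · rfl

/-! TARGET: prove everything below this line  -/

theorem G_a {K : Subfield ℂ} {x : Fin 4 → A2} {t : A2} {v : Fin 4 × Fin 3 → ℂ}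
    (hv : AlgebraicIndependent K v) (F : MvPolynomial (Fin 3) ℂ) (hF : F ≠ 0)
    (hFK : ∀ m, coeff m F ∈ K) (h : aeval ![x 0, x 1, t] F = (0 : A2)) :
    IsIntegral (Algebra.adjoin ℂ (Set.range (xg v x t))) t := by
  obtain ⟨B, hB⟩ : ∃ B : Subalgebra ℂ A2, B = Algebra.adjoin ℂ (Set.range (xg v x t)) := ⟨_, rfl⟩
  rw [← hB]
  have hgm : ∀ i, xg v x t i ∈ B := fun i => by
    rw [hB]; exact Algebra.subset_adjoin ⟨i, rfl⟩
  obtain ⟨U, hU⟩ : ∃ U : Fin 4 → Polynomial B, U = fun i =>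
      Polynomial.C (⟨xg v x t i, hgm i⟩ : B) - (Polynomial.C (algebraMap ℂ B (v (i, 0))) * Polynomial.X +
        Polynomial.C (algebraMap ℂ B (v (i, 1))) * Polynomial.X ^ 2 +
        Polynomial.C (algebraMap ℂ B (v (i, 2))) * Polynomial.X ^ 3) := ⟨_, rfl⟩
  have hUd : ∀ i, (U i).natDegree ≤ 3 := by
    intro i
    rw [hU]
    refine Polynomial.natDegree_sub_le_of_le (m := 3) (n := 3) ?_ ?_ |>.trans (by simp)
    · rw [Polynomial.natDegree_C]; norm_num
    · refine Polynomial.natDegree_add_le_of_degree_le ?_ ?_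
      · refine Polynomial.natDegree_add_le_of_degree_le ?_ ?_
        · refine (Polynomial.natDegree_C_mul_le _ _).trans ?_
          exact Polynomial.natDegree_X_le.trans (by norm_num)
        · refine (Polynomial.natDegree_C_mul_le _ _).trans ?_
          exact (Polynomial.natDegree_X_pow_le 2).trans (by norm_num)
      · refine (Polynomial.natDegree_C_mul_le _ _).trans ?_
        exact Polynomial.natDegree_X_pow_le 3
  have hUc : ∀ i, (U i).coeff 3 = - algebraMap ℂ B (v (i, 2)) := by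
    intro i
    rw [hU]
    simp [Polynomial.coeff_X, Polynomial.coeff_C, Polynomial.coeff_X_pow]
  obtain ⟨P, hP⟩ : ∃ P : Polynomial B, P = eval₂ (Polynomial.C.comp (algebraMap ℂ B))
      (![U 0, U 1, Polynomial.X] : Fin 3 → Polynomial B) F := ⟨_, rfl⟩
  have hPsum : P = ∑ m ∈ F.support, Polynomial.C (algebraMap ℂ B (coeff m F)) *
      ∏ i, (![U 0, U 1, Polynomial.X] : Fin 3 → Polynomial B) i ^ m i := by
    rw [hP, eval₂_eq']
    rfl
  obtain ⟨m0, hm0, hmax⟩ := Finset.exists_max_image F.support ga_wt (by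
    rw [Finset.nonempty_iff_ne_empty]
    intro h0
    exact hF (support_eq_empty.1 h0))
  obtain ⟨M, hM⟩ : ∃ M, M = ga_wt m0 := ⟨_, rfl⟩
  rw [← hM] at hmax
  obtain ⟨c, hc⟩ : ∃ c : ℂ, c = ∑ m ∈ F.support, (if ga_wt m = M then
    coeff m F * ((-(v (0, 2))) ^ m 0 * (-(v (1, 2))) ^ m 1) else 0) := ⟨_, rfl⟩
  have hc0 : c ≠ 0 := by rw [hc]; exact ga_ne hv F hFK M m0 hm0 hM.symm
  have hPd : P.natDegree ≤ M := by
    rw [hPsum]
    apply Polynomial.natDegree_sum_le_of_forall_le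
    intro m hm
    exact (ga_term (U 0) (U 1) (hUd 0) (hUd 1) _ m M (hmax m hm)).1
  have hPc : P.coeff M = algebraMap ℂ B c := by
    rw [hPsum, Polynomial.finset_sum_coeff, hc, map_sum]
    apply Finset.sum_congr rfl
    intro m hm
    rw [(ga_term (U 0) (U 1) (hUd 0) (hUd 1) _ m M (hmax m hm)).2]
    split_ifs
    · rw [hUc, hUc, map_mul, map_mul, map_pow, map_pow, map_neg, map_neg]
    · rw [map_zero]
  refine ⟨Polynomial.C (algebraMap ℂ B c⁻¹) * P, ?_, ?_⟩
  · apply Polynomial.monic_of_natDegree_le_of_coeff_eq_one M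
    · exact (Polynomial.natDegree_C_mul_le _ _).trans hPd
    · rw [Polynomial.coeff_C_mul, hPc, ← map_mul, inv_mul_cancel₀ hc0, map_one]
  · rw [Polynomial.eval₂_mul]
    have hz : Polynomial.eval₂ (algebraMap B A2) t P = 0 := by
      have e1 := eval₂_comp_left (Polynomial.eval₂RingHom (algebraMap B A2) t)
        (Polynomial.C.comp (algebraMap ℂ B)) (![U 0, U 1, Polynomial.X] : Fin 3 → Polynomial B) F
      rw [← hP] at e1
      have e2 : Polynomial.eval₂RingHom (algebraMap B A2) t P = Polynomial.eval₂ (algebraMap B A2) t P := rfl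
      rw [e2] at e1
      rw [e1, ← h, aeval_def]
      have e3 : (Polynomial.eval₂RingHom (algebraMap B A2) t).comp (Polynomial.C.comp (algebraMap ℂ B)) =
          algebraMap ℂ A2 := by
        ext c
        simp
        try rfl
      have e4 : (⇑(Polynomial.eval₂RingHom (algebraMap B A2) t)) ∘ (![U 0, U 1, Polynomial.X] : Fin 3 → Polynomial B) =
          ![x 0, x 1, t] := by
        have hUi : ∀ i, Polynomial.eval₂ (algebraMap B A2) t (U i) = x i := by
          intro i
          rw [hU]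
          simp only [Polynomial.eval₂_sub, Polynomial.eval₂_add, Polynomial.eval₂_mul, Polynomial.eval₂_C,
            Polynomial.eval₂_X, Polynomial.eval₂_pow]
          have a1 : ∀ z : ℂ, algebraMap B A2 (algebraMap ℂ B z) = C z := fun z => rfl
          have a2 : algebraMap B A2 (⟨xg v x t i, hgm i⟩ : B) = xg v x t i := rfl
          rw [a1, a1, a1, a2]
          unfold xg
          ring
        funext i
        fin_cases i
        · exact hUi 0
        · exact hUi 1
        · simp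
      rw [e3, e4]
    rw [hz, mul_zero]


end Pool.Agent.PLG
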