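import Pool.Agent.Helper419.PL.Defs

set_option autoImplicit false

/-! S00177 module G, lemma MEM (board job). -/

open MvPolynomial

namespace Pool.Agent.PLG


theorem eval_mem (L : Subfield ℂ) (f : A2) (hf : ∀ m, coeff m f ∈ L) (p : Fin 2 → ℂ)
    (hp : ∀ j, p j ∈ L) : eval p f ∈ L := by
  rw [MvPolynomial.eval_eq]
  refine sum_mem fun d _ => mul_mem (hf d) (prod_mem fun i _ => pow_mem (hp i) _)

theorem pderiv_coeff_mem (L : Subfield ℂ) (f : A2) (hf : ∀ m, coeff m f ∈ L) (j : Fin 2) :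
    ∀ m, coeff m (pderiv j f) ∈ L := by
  intro m
  rw [f.as_sum, map_sum, coeff_sum]
  refine sum_mem fun d _ => ?_
  rw [pderiv_monomial, coeff_monomial]
  split_ifs
  · exact mul_mem (hf d) (natCast_mem L _)
  · exact zero_mem L

theorem DD_mem (L : Subfield ℂ) (f : A2) (hf : ∀ m, coeff m f ∈ L) (p ξ : Fin 2 → ℂ)
    (hp : ∀ j, p j ∈ L) (hξ : ∀ j, ξ j ∈ L) : DD ξ f p ∈ L := by
  unfold DD
  exact sum_mem fun j _ => mul_mem (hξ j) (eval_mem L _ (pderiv_coeff_mem L f hf j) p hp)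

theorem eval_xg (v : Fin 4 × Fin 3 → ℂ) (x : Fin 4 → A2) (t : A2) (i : Fin 4) (p : Fin 2 → ℂ) :
    eval p (xg v x t i) = eval p (x i) + v (i, 0) * eval p t + v (i, 1) * eval p t ^ 2 +
      v (i, 2) * eval p t ^ 3 := by
  simp [xg]

theorem DD_xg (v : Fin 4 × Fin 3 → ℂ) (x : Fin 4 → A2) (t : A2) (i : Fin 4) (p ξ : Fin 2 → ℂ) :
    DD ξ (xg v x t i) p = DD ξ (x i) p +
      (v (i, 0) + 2 * v (i, 1) * eval p t + 3 * v (i, 2) * eval p t ^ 2) * DD ξ t p := by
  have h : ∀ j, eval p (pderiv j (xg v x t i)) = eval p (pderiv j (x i)) +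
      (v (i, 0) + 2 * v (i, 1) * eval p t + 3 * v (i, 2) * eval p t ^ 2) *
        eval p (pderiv j t) := by
    intro j
    simp only [xg, map_add, Derivation.leibniz, Derivation.leibniz_pow, pderiv_C, smul_eq_mul,
      mul_zero, add_zero, map_mul, map_pow, eval_C, nsmul_eq_mul, map_natCast]
    push_cast
    ring
  unfold DD
  simp only [h, Fin.sum_univ_two]
  ring

theorem DD_smul (c : ℂ) (ξ : Fin 2 → ℂ) (f : A2) (p : Fin 2 → ℂ) :
    DD (c • ξ) f p = c * DD ξ f p := by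
  unfold DD
  rw [Finset.mul_sum]
  refine Finset.sum_congr rfl fun j _ => ?_
  rw [Pi.smul_apply, smul_eq_mul, mul_assoc]

end Pool.Agent.PLG
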