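import Pool.Agent.Helper419.PL.Defs

set_option autoImplicit false

/-! S00177 module G, lemma TR (board job). -/

open MvPolynomial

namespace Pool.Agent.PLG


/-- transcendence degree bound -/
theorem td_le' {ι κ : Type} [Fintype ι] [Fintype κ] (K : Subfield ℂ) (s : κ → ℂ) (c : ι → ℂ)
    (h : AlgebraicIndependent K c)
    (halg : ∀ j, IsAlgebraic (Algebra.adjoin K (Set.range s)) (c j)) :
    Fintype.card ι ≤ Fintype.card κ := by
  classical
  set M := AlgebraicIndependent.matroid K ℂ with hM
  have hI : M.Indep (Set.range c) := by
    rw [hM, AlgebraicIndependent.matroid_indep_iff]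
    exact h.to_subtype_range
  have hsub : Set.range c ⊆ M.closure (Set.range s) := by
    rintro _ ⟨j, rfl⟩
    rw [hM, AlgebraicIndependent.matroid_closure_eq]
    exact halg j
  have h1 : (Set.range c).encard ≤ M.eRk (Set.range s) := by
    have := hI.encard_le_eRk_of_subset hsub
    rwa [Matroid.eRk_closure_eq] at this
  have h2 : M.eRk (Set.range s) ≤ (Set.range s).encard := M.eRk_le_encard _
  have h3 : (Set.range c).encard = Fintype.card ι := by
    rw [← Set.image_univ, h.injective.encard_image]
    simp
  have h4 : (Set.range s).encard ≤ Fintype.card κ := by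
    rw [← Set.image_univ]
    refine (Set.encard_image_le _ _).trans ?_
    simp
  have h5 : ((Fintype.card ι : ℕ∞)) ≤ Fintype.card κ := by
    rw [← h3]; exact h1.trans (h2.trans h4)
  exact_mod_cast h5

open scoped IntermediateField.algebraAdjoinAdjoin in
theorem tr_count {ι κ : Type} [Fintype ι] [Fintype κ] (K : Subfield ℂ) (v : ι → ℂ)
    (hv : AlgebraicIndependent K v) (s : κ → ℂ) (hc : Fintype.card κ < Fintype.card ι)
    (h : ∀ i, IsAlgebraic (Subfield.closure ((K : Set ℂ) ∪ Set.range s)) (v i)) : False := by
  have key : ∀ i, IsAlgebraic (Algebra.adjoin K (Set.range s)) (v i) := by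
    intro i
    rw [IsFractionRing.isAlgebraic_iff (Algebra.adjoin K (Set.range s))
      (IntermediateField.adjoin K (Set.range s)) ℂ]
    have h1 := h i
    have h2 : (IntermediateField.adjoin K (Set.range s)).toSubfield
        = Subfield.closure ((K : Set ℂ) ∪ Set.range s) := by
      rw [IntermediateField.adjoin_toSubfield]
      congr 2
      ext z
      simp only [Set.mem_range, SetLike.mem_coe]
      constructor
      · rintro ⟨y, rfl⟩
        exact y.2
      · intro hz
        exact ⟨⟨z, hz⟩, rfl⟩
    rw [← h2] at h1
    exact h1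
  have := td_le' K s v hv key
  omega

end Pool.Agent.PLG
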