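import Pool.Agent.Helper419.PL.Defs
import Pool.Agent.Helper419.PL.S_TR

set_option autoImplicit false

/-! S00177 module G, lemma TR2 (board job). -/

open MvPolynomial

namespace Pool.Agent.PLG


theorem tr_count_mem {ι κ : Type} [Fintype ι] [Fintype κ] (K : Subfield ℂ) (v : ι → ℂ)
    (hv : AlgebraicIndependent K v) (s : κ → ℂ) (hc : Fintype.card κ < Fintype.card ι)
    (h : ∀ i, v i ∈ Subfield.closure ((K : Set ℂ) ∪ Set.range s)) : False := by
  exact tr_count K v hv s hc (fun i => isAlgebraic_algebraMap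
    (⟨v i, h i⟩ : Subfield.closure ((K : Set ℂ) ∪ Set.range s)))

end Pool.Agent.PLG
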