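import Pool.Agent.Helper419.PL.Defs
import Pool.Agent.Helper419.PL.S_MEM
import Pool.Agent.Helper419.PL.S_TR2

set_option autoImplicit false

/-! S00177 module G, lemma Gb (board job). -/

open MvPolynomial

namespace Pool.Agent.PLG


theorem G_b {K : Subfield ℂ} {x : Fin 4 → A2} {t : A2} {v : Fin 4 × Fin 3 → ℂ}
    (H : Dat K x t v) (p ξ : Fin 2 → ℂ) (h : ∀ i, DD ξ (xg v x t i) p = 0) : ξ = 0 := by
  by_contra hξ
  by_cases hσ : DD ξ t p = 0
  · apply hξ
    refine H.imm p ξ (fun i => ?_) hσ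
    have h1 := h i
    rw [DD_xg, hσ, mul_zero, add_zero] at h1
    exact h1
  · obtain ⟨j0, hj0⟩ : ∃ j0, ξ j0 ≠ 0 := by
      by_contra hcon
      push Not at hcon
      exact hξ (funext hcon)
    obtain ⟨η, hη⟩ : ∃ η : Fin 2 → ℂ, η = (ξ j0)⁻¹ • ξ := ⟨_, rfl⟩
    have hη1 : η j0 = 1 := by
      rw [hη, Pi.smul_apply, smul_eq_mul, inv_mul_cancel₀ hj0]
    have hησ : DD η t p ≠ 0 := by
      rw [hη, DD_smul]
      exact mul_ne_zero (inv_ne_zero hj0) hσ
    have hη0 : ∀ i, DD η (x i) p +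
        (v (i, 0) + 2 * v (i, 1) * eval p t + 3 * v (i, 2) * eval p t ^ 2) * DD η t p = 0 := by
      intro i
      rw [← DD_xg, hη, DD_smul, h i, mul_zero]
    let s : Fin 3 ⊕ (Fin 4 × Fin 2) → ℂ :=
      Sum.elim ![p 0, p 1, η 0 + η 1 - 1] (fun ik => v (ik.1, ik.2.succ))
    refine tr_count_mem K v H.hv s (by simp) ?_
    obtain ⟨L, hL⟩ : ∃ L : Subfield ℂ, L = Subfield.closure ((K : Set ℂ) ∪ Set.range s) := ⟨_, rfl⟩
    rw [← hL]
    have hKL : ∀ z, z ∈ K → z ∈ L := by
      intro z hz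
      rw [hL]
      exact Subfield.subset_closure (Or.inl hz)
    have hsL : ∀ a, s a ∈ L := by
      intro a
      rw [hL]
      exact Subfield.subset_closure (Or.inr ⟨a, rfl⟩)
    have hp : ∀ j, p j ∈ L := by
      intro j
      fin_cases j
      · exact hsL (Sum.inl 0)
      · exact hsL (Sum.inl 1)
    have h3 : η 0 + η 1 - 1 ∈ L := hsL (Sum.inl 2)
    have hηL : ∀ j, η j ∈ L := by
      intro j
      by_cases hj : j = j0
      · rw [hj, hη1]; exact L.one_mem
      · have h4 : η j = η 0 + η 1 - 1 := by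
          fin_cases j <;> fin_cases j0
          · exact absurd rfl hj
          · have h5 : η 1 = 1 := hη1
            show η 0 = _
            rw [h5]; ring
          · have h5 : η 0 = 1 := hη1
            show η 1 = _
            rw [h5]; ring
          · exact absurd rfl hj
        rw [h4]; exact h3
    have hv12 : ∀ i (k : Fin 2), v (i, k.succ) ∈ L := fun i k => hsL (Sum.inr (i, k))
    have hτ : eval p t ∈ L := eval_mem L t (fun m => hKL _ (H.ht m)) p hp
    have hDt : DD η t p ∈ L := DD_mem L t (fun m => hKL _ (H.ht m)) p η hp hηL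
    have hDx : ∀ i, DD η (x i) p ∈ L := fun i =>
      DD_mem L (x i) (fun m => hKL _ (H.hx i m)) p η hp hηL
    have h1L : ∀ i, v (i, 1) ∈ L := fun i => hv12 i 0
    have h2L : ∀ i, v (i, 2) ∈ L := fun i => hv12 i 1
    have two : (2 : ℂ) ∈ L := by exact_mod_cast natCast_mem L 2
    have three : (3 : ℂ) ∈ L := by exact_mod_cast natCast_mem L 3
    rintro ⟨i, k⟩
    fin_cases k
    · have h6 : v (i, 0) = -(DD η (x i) p) / DD η t p - 2 * v (i, 1) * eval p t -
          3 * v (i, 2) * eval p t ^ 2 := by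
        have h7 := hη0 i
        field_simp
        linear_combination h7
      show v (i, 0) ∈ L
      rw [h6]
      exact L.sub_mem (L.sub_mem (L.div_mem (L.neg_mem (hDx i)) hDt)
        (L.mul_mem (L.mul_mem two (h1L i)) hτ)) (L.mul_mem (L.mul_mem three (h2L i)) (L.pow_mem hτ 2))
    · exact h1L i
    · exact h2L i

end Pool.Agent.PLG
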