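import Pool.Agent.Helper419.PL.Defs
import Pool.Agent.Helper419.PL.S_MEM
import Pool.Agent.Helper419.PL.S_TR2

set_option autoImplicit false

/-! S00177 module G, lemma Gc (board job). -/

open MvPolynomial

namespace Pool.Agent.PLG


theorem G_c {K : Subfield ℂ} {x : Fin 4 → A2} {t : A2} {v : Fin 4 × Fin 3 → ℂ}
    (H : Dat K x t v) (p q r : Fin 2 → ℂ) (hpq : p ≠ q) (hpr : p ≠ r) (hqr : q ≠ r)
    (h1 : ∀ i, eval p (xg v x t i) = eval q (xg v x t i))
    (h2 : ∀ i, eval p (xg v x t i) = eval r (xg v x t i)) : False := by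
  have t12 : eval p t ≠ eval q t := by
    intro h
    apply hpq
    refine H.inj p q (fun i => ?_) h
    have h3 := h1 i
    rw [eval_xg, eval_xg, h] at h3
    linear_combination h3
  have t13 : eval p t ≠ eval r t := by
    intro h
    apply hpr
    refine H.inj p r (fun i => ?_) h
    have h3 := h2 i
    rw [eval_xg, eval_xg, h] at h3
    linear_combination h3
  have t23 : eval q t ≠ eval r t := by
    intro h
    apply hqr
    refine H.inj q r (fun i => ?_) h
    have h3 := (h1 i).symm.trans (h2 i)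
    rw [eval_xg, eval_xg, h] at h3
    linear_combination h3
  let s : Fin 2 ⊕ Fin 2 ⊕ Fin 2 ⊕ Fin 4 → ℂ :=
    Sum.elim p (Sum.elim q (Sum.elim r (fun i => v (i, 2))))
  refine tr_count_mem K v H.hv s (by simp) ?_
  obtain ⟨L, hL⟩ : ∃ L : Subfield ℂ, L = Subfield.closure ((K : Set ℂ) ∪ Set.range s) := ⟨_, rfl⟩
  rw [← hL]
  have hKL : ∀ c ∈ K, c ∈ L := by
    intro c hc
    rw [hL]
    exact Subfield.subset_closure (Or.inl hc)
  have hsL : ∀ k, s k ∈ L := by
    intro k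
    rw [hL]
    exact Subfield.subset_closure (Or.inr ⟨k, rfl⟩)
  have hp : ∀ j, p j ∈ L := fun j => hsL (Sum.inl j)
  have hq : ∀ j, q j ∈ L := fun j => hsL (Sum.inr (Sum.inl j))
  have hr : ∀ j, r j ∈ L := fun j => hsL (Sum.inr (Sum.inr (Sum.inl j)))
  have he : ∀ i, v (i, 2) ∈ L := fun i => hsL (Sum.inr (Sum.inr (Sum.inr i)))
  have hT1 : eval p t ∈ L := eval_mem L t (fun m => hKL _ (H.ht m)) p hp
  have hT2 : eval q t ∈ L := eval_mem L t (fun m => hKL _ (H.ht m)) q hq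
  have hT3 : eval r t ∈ L := eval_mem L t (fun m => hKL _ (H.ht m)) r hr
  have hP : ∀ i, eval p (x i) ∈ L := fun i => eval_mem L (x i) (fun m => hKL _ (H.hx i m)) p hp
  have hQ : ∀ i, eval q (x i) ∈ L := fun i => eval_mem L (x i) (fun m => hKL _ (H.hx i m)) q hq
  have hR : ∀ i, eval r (x i) ∈ L := fun i => eval_mem L (x i) (fun m => hKL _ (H.hx i m)) r hr
  obtain ⟨a, ha⟩ : ∃ a, a = eval p t := ⟨_, rfl⟩
  obtain ⟨b, hb⟩ : ∃ b, b = eval q t := ⟨_, rfl⟩
  obtain ⟨c, hc⟩ : ∃ c, c = eval r t := ⟨_, rfl⟩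
  rw [← ha] at t12 t13 hT1
  rw [← hb] at t12 t23 hT2
  rw [← hc] at t13 t23 hT3
  have hab : a - b ≠ 0 := sub_ne_zero.2 t12
  have hac : a - c ≠ 0 := sub_ne_zero.2 t13
  have hbc : b - c ≠ 0 := sub_ne_zero.2 t23
  have key : ∀ i, v (i, 0) ∈ L ∧ v (i, 1) ∈ L := by
    intro i
    have e1 := h1 i
    have e2 := h2 i
    rw [eval_xg, eval_xg, ← ha, ← hb] at e1
    rw [eval_xg, eval_xg, ← ha, ← hc] at e2
    obtain ⟨A, hA⟩ : ∃ A, A = (eval q (x i) - eval p (x i) + v (i, 2) * (b ^ 3 - a ^ 3)) / (a - b) :=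
      ⟨_, rfl⟩
    obtain ⟨B, hB⟩ : ∃ B, B = (eval r (x i) - eval p (x i) + v (i, 2) * (c ^ 3 - a ^ 3)) / (a - c) :=
      ⟨_, rfl⟩
    have hAL : A ∈ L := by
      rw [hA]
      exact div_mem (add_mem (sub_mem (hQ i) (hP i)) (mul_mem (he i)
        (sub_mem (pow_mem hT2 3) (pow_mem hT1 3)))) (sub_mem hT1 hT2)
    have hBL : B ∈ L := by
      rw [hB]
      exact div_mem (add_mem (sub_mem (hR i) (hP i)) (mul_mem (he i)
        (sub_mem (pow_mem hT3 3) (pow_mem hT1 3)))) (sub_mem hT1 hT3)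
    have f1 : v (i, 0) + v (i, 1) * (a + b) = A := by
      rw [hA, eq_div_iff hab]
      linear_combination e1
    have f2 : v (i, 0) + v (i, 1) * (a + c) = B := by
      rw [hB, eq_div_iff hac]
      linear_combination e2
    have f3 : v (i, 1) = (A - B) / (b - c) := by
      rw [eq_div_iff hbc]
      linear_combination f1 - f2
    have m1 : v (i, 1) ∈ L := by
      rw [f3]
      exact div_mem (sub_mem hAL hBL) (sub_mem hT2 hT3)
    refine ⟨?_, m1⟩
    have f4 : v (i, 0) = A - v (i, 1) * (a + b) := by linear_combination f1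
    rw [f4]
    exact sub_mem hAL (mul_mem m1 (add_mem hT1 hT2))
  rintro ⟨i, j⟩
  fin_cases j
  · exact (key i).1
  · exact (key i).2
  · exact he i

end Pool.Agent.PLG
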