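import Pool.Agent.Helper419.PL.Defs
import Pool.Agent.Helper419.PL.S_MEM
import Pool.Agent.Helper419.PL.S_TR2

set_option autoImplicit false

/-! S00177 module G, lemma Gd1 (board job). -/

open MvPolynomial

namespace Pool.Agent.PLG


theorem G_cramer (L : Subfield ℂ) {a1 b1 r1 a2 b2 r2 X Y : ℂ} (ha1 : a1 ∈ L) (hb1 : b1 ∈ L)
    (hr1 : r1 ∈ L) (ha2 : a2 ∈ L) (hb2 : b2 ∈ L) (hr2 : r2 ∈ L) (e1 : a1 * X + b1 * Y = r1)
    (e2 : a2 * X + b2 * Y = r2) (hd : a1 * b2 - a2 * b1 ≠ 0) : X ∈ L ∧ Y ∈ L := by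
  have hX : X = (r1*b2 - r2*b1)/(a1*b2 - a2*b1) := by
    rw [eq_div_iff hd, ← e1, ← e2]; ring
  have hY : Y = (a1*r2 - a2*r1)/(a1*b2 - a2*b1) := by
    rw [eq_div_iff hd, ← e1, ← e2]; ring
  have hD : a1*b2 - a2*b1 ∈ L := L.sub_mem (L.mul_mem ha1 hb2) (L.mul_mem ha2 hb1)
  constructor
  · rw [hX]; exact L.div_mem (L.sub_mem (L.mul_mem hr1 hb2) (L.mul_mem hr2 hb1)) hD
  · rw [hY]; exact L.div_mem (L.sub_mem (L.mul_mem ha1 hr2) (L.mul_mem ha2 hr1)) hD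

theorem G_card : ∀ k0 : Fin 2 ⊕ Fin 2, Fintype.card {k : Fin 2 ⊕ Fin 2 // k ≠ k0} = 3 := by
  decide

theorem G_core {K : Subfield ℂ} {x : Fin 4 → A2} {t : A2} {v : Fin 4 × Fin 3 → ℂ}
    (H : Dat K x t v) (p q ξ η : Fin 2 → ℂ) (k0 : Fin 2 ⊕ Fin 2) (hk0 : Sum.elim ξ η k0 = 1)
    (w : Fin 4 → ℂ)
    (hall : ∀ L : Subfield ℂ, (∀ i m, coeff m (x i) ∈ L) → (∀ m, coeff m t ∈ L) →
      (∀ j, p j ∈ L) → (∀ j, q j ∈ L) → (∀ j, ξ j ∈ L) → (∀ j, η j ∈ L) → (∀ i, w i ∈ L) →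
      ∀ i j, v (i, j) ∈ L) : False := by
  have hs : ∀ (k : (Fin 2 ⊕ Fin 2) ⊕ ({k : Fin 2 ⊕ Fin 2 // k ≠ k0} ⊕ Fin 4)),
      (Sum.elim (Sum.elim p q) (Sum.elim (fun k : {k : Fin 2 ⊕ Fin 2 // k ≠ k0} => Sum.elim ξ η k.1) w)) k ∈
        Subfield.closure ((K : Set ℂ) ∪ Set.range (Sum.elim (Sum.elim p q)
          (Sum.elim (fun k : {k : Fin 2 ⊕ Fin 2 // k ≠ k0} => Sum.elim ξ η k.1) w))) :=
    fun k => Subfield.subset_closure (Or.inr ⟨k, rfl⟩)
  have hz : ∀ k : Fin 2 ⊕ Fin 2, Sum.elim ξ η k ∈ Subfield.closure ((K : Set ℂ) ∪ Set.range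
      (Sum.elim (Sum.elim p q)
          (Sum.elim (fun k : {k : Fin 2 ⊕ Fin 2 // k ≠ k0} => Sum.elim ξ η k.1) w))) := by
    intro k
    by_cases hk : k = k0
    · rw [hk, hk0]; exact Subfield.one_mem _
    · exact hs (Sum.inr (Sum.inl ⟨k, hk⟩))
  apply tr_count_mem K v H.hv (Sum.elim (Sum.elim p q)
    (Sum.elim (fun k : {k : Fin 2 ⊕ Fin 2 // k ≠ k0} => Sum.elim ξ η k.1) w))
  · rw [Fintype.card_sum, Fintype.card_sum, Fintype.card_sum, G_card]
    simp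
  · rintro ⟨i, j⟩
    apply hall
    · exact fun i m => Subfield.subset_closure (Or.inl (H.hx i m))
    · exact fun m => Subfield.subset_closure (Or.inl (H.ht m))
    · exact fun j => hs (Sum.inl (Sum.inl j))
    · exact fun j => hs (Sum.inl (Sum.inr j))
    · exact fun j => hz (Sum.inl j)
    · exact fun j => hz (Sum.inr j)
    · exact fun i => hs (Sum.inr (Sum.inr i))

theorem G_d1_norm {K : Subfield ℂ} {x : Fin 4 → A2} {t : A2} {v : Fin 4 × Fin 3 → ℂ}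
    (H : Dat K x t v) (p q ξ η : Fin 2 → ℂ) (hpq : p ≠ q)
    (h1 : ∀ i, eval p (xg v x t i) = eval q (xg v x t i))
    (h2 : ∀ i, DD ξ (xg v x t i) p = DD η (xg v x t i) q)
    (k0 : Fin 2 ⊕ Fin 2) (hk0 : Sum.elim ξ η k0 = 1) (hσ : ¬ (DD ξ t p = 0 ∧ DD η t q = 0)) :
    False := by
  simp only [eval_xg] at h1
  simp only [DD_xg] at h2
  have hτ : eval p t ≠ eval q t := by
    intro he
    apply hpq
    apply H.inj p q _ he
    intro i
    have := h1 i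
    rw [he] at this
    linear_combination this
  have hτ' : eval p t - eval q t ≠ 0 := sub_ne_zero.mpr hτ
  obtain ⟨τ, hτd⟩ : ∃ τ, τ = eval p t := ⟨_, rfl⟩
  obtain ⟨τ', hτd'⟩ : ∃ τ', τ' = eval q t := ⟨_, rfl⟩
  obtain ⟨σ, hσd⟩ : ∃ σ, σ = DD ξ t p := ⟨_, rfl⟩
  obtain ⟨σ', hσd'⟩ : ∃ σ', σ' = DD η t q := ⟨_, rfl⟩
  rw [← hτd, ← hτd'] at hτ'
  rw [← hσd, ← hσd'] at hσ
  simp only [← hτd, ← hτd', ← hσd, ← hσd'] at h1 h2
  by_cases hsum : σ + σ' = 0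
  · -- σ' = -σ
    have hσ' : σ' = -σ := by linear_combination hsum
    have hσ0 : σ ≠ 0 := by
      intro h0
      exact hσ ⟨h0, by rw [hσ', h0, neg_zero]⟩
    apply G_core H p q ξ η k0 hk0 (fun i => v (i, 1))
    intro L hx ht hp hq hξ hη hw
    have hτL : τ ∈ L := by rw [hτd]; exact eval_mem L t ht p hp
    have hτL' : τ' ∈ L := by rw [hτd']; exact eval_mem L t ht q hq
    have hσL : σ ∈ L := by rw [hσd]; exact DD_mem L t ht p ξ hp hξ
    have hσL' : σ' ∈ L := by rw [hσd']; exact DD_mem L t ht q η hq hη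
    have h2L : (2:ℂ) ∈ L := by exact_mod_cast natCast_mem L 2
    have h3L : (3:ℂ) ∈ L := by exact_mod_cast natCast_mem L 3
    have hmain : ∀ i, v (i, 0) ∈ L ∧ v (i, 2) ∈ L := by
      intro i
      have hxp := eval_mem L (x i) (hx i) p hp
      have hxq := eval_mem L (x i) (hx i) q hq
      have hdp := DD_mem L (x i) (hx i) p ξ hp hξ
      have hdq := DD_mem L (x i) (hx i) q η hq hη
      have hwi : v (i, 1) ∈ L := hw i
      refine G_cramer L (a1 := τ - τ') (b1 := τ^3 - τ'^3)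
        (r1 := eval q (x i) - eval p (x i) - v (i,1) * (τ^2 - τ'^2))
        (a2 := σ - σ') (b2 := 3 * (τ^2 * σ - τ'^2 * σ'))
        (r2 := DD η (x i) q - DD ξ (x i) p - v (i,1) * (2 * (τ * σ - τ' * σ')))
        (L.sub_mem hτL hτL') (L.sub_mem (L.pow_mem hτL 3) (L.pow_mem hτL' 3))
        (L.sub_mem (L.sub_mem hxq hxp) (L.mul_mem hwi (L.sub_mem (L.pow_mem hτL 2) (L.pow_mem hτL' 2))))
        (L.sub_mem hσL hσL')
        (L.mul_mem h3L (L.sub_mem (L.mul_mem (L.pow_mem hτL 2) hσL) (L.mul_mem (L.pow_mem hτL' 2) hσL')))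
        (L.sub_mem (L.sub_mem hdq hdp) (L.mul_mem hwi (L.mul_mem h2L
          (L.sub_mem (L.mul_mem hτL hσL) (L.mul_mem hτL' hσL')))))
        (by linear_combination h1 i) (by linear_combination h2 i) ?_
      have e : (τ - τ') * (3 * (τ^2 * σ - τ'^2 * σ')) - (σ - σ') * (τ^3 - τ'^3) =
          (τ - τ')^3 * σ := by
        rw [hσ']; ring
      rw [e]
      exact mul_ne_zero (pow_ne_zero _ hτ') hσ0
    intro i j
    fin_cases j
    · exact (hmain i).1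
    · exact hw i
    · exact (hmain i).2
  · apply G_core H p q ξ η k0 hk0 (fun i => v (i, 2))
    intro L hx ht hp hq hξ hη hw
    have hτL : τ ∈ L := by rw [hτd]; exact eval_mem L t ht p hp
    have hτL' : τ' ∈ L := by rw [hτd']; exact eval_mem L t ht q hq
    have hσL : σ ∈ L := by rw [hσd]; exact DD_mem L t ht p ξ hp hξ
    have hσL' : σ' ∈ L := by rw [hσd']; exact DD_mem L t ht q η hq hη
    have h2L : (2:ℂ) ∈ L := by exact_mod_cast natCast_mem L 2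
    have h3L : (3:ℂ) ∈ L := by exact_mod_cast natCast_mem L 3
    have hmain : ∀ i, v (i, 0) ∈ L ∧ v (i, 1) ∈ L := by
      intro i
      have hxp := eval_mem L (x i) (hx i) p hp
      have hxq := eval_mem L (x i) (hx i) q hq
      have hdp := DD_mem L (x i) (hx i) p ξ hp hξ
      have hdq := DD_mem L (x i) (hx i) q η hq hη
      have hwi : v (i, 2) ∈ L := hw i
      refine G_cramer L (a1 := τ - τ') (b1 := τ^2 - τ'^2)
        (r1 := eval q (x i) - eval p (x i) - v (i,2) * (τ^3 - τ'^3))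
        (a2 := σ - σ') (b2 := 2 * (τ * σ - τ' * σ'))
        (r2 := DD η (x i) q - DD ξ (x i) p - v (i,2) * (3 * (τ^2 * σ - τ'^2 * σ')))
        (L.sub_mem hτL hτL') (L.sub_mem (L.pow_mem hτL 2) (L.pow_mem hτL' 2))
        (L.sub_mem (L.sub_mem hxq hxp) (L.mul_mem hwi (L.sub_mem (L.pow_mem hτL 3) (L.pow_mem hτL' 3))))
        (L.sub_mem hσL hσL')
        (L.mul_mem h2L (L.sub_mem (L.mul_mem hτL hσL) (L.mul_mem hτL' hσL')))
        (L.sub_mem (L.sub_mem hdq hdp) (L.mul_mem hwi (L.mul_mem h3L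
          (L.sub_mem (L.mul_mem (L.pow_mem hτL 2) hσL) (L.mul_mem (L.pow_mem hτL' 2) hσL')))))
        (by linear_combination h1 i) (by linear_combination h2 i) ?_
      have e : (τ - τ') * (2 * (τ * σ - τ' * σ')) - (σ - σ') * (τ^2 - τ'^2) =
          (τ - τ')^2 * (σ + σ') := by ring
      rw [e]
      exact mul_ne_zero (pow_ne_zero _ hτ') hsum
    intro i j
    fin_cases j
    · exact (hmain i).1
    · exact (hmain i).2
    · exact hw i

theorem G_d1 {K : Subfield ℂ} {x : Fin 4 → A2} {t : A2} {v : Fin 4 × Fin 3 → ℂ}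
    (H : Dat K x t v) (p q ξ η : Fin 2 → ℂ) (hpq : p ≠ q)
    (h1 : ∀ i, eval p (xg v x t i) = eval q (xg v x t i))
    (h2 : ∀ i, DD ξ (xg v x t i) p = DD η (xg v x t i) q) : DD ξ t p = 0 ∧ DD η t q = 0 := by
  by_contra hσ
  have hne : ∃ k, Sum.elim ξ η k ≠ 0 := by
    by_contra hall
    push Not at hall
    have hξ : ξ = 0 := by
      funext j; exact hall (Sum.inl j)
    have hη : η = 0 := by
      funext j; exact hall (Sum.inr j)
    apply hσ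
    rw [hξ, hη]
    unfold DD
    simp
  obtain ⟨k0, hk0⟩ := hne
  obtain ⟨c, hc⟩ : ∃ c, c = (Sum.elim ξ η k0)⁻¹ := ⟨_, rfl⟩
  have hc0 : c ≠ 0 := by rw [hc]; exact inv_ne_zero hk0
  apply G_d1_norm H p q (c • ξ) (c • η) hpq h1 (fun i => by rw [DD_smul, DD_smul, h2 i]) k0
  · have : Sum.elim (c • ξ) (c • η) k0 = c * Sum.elim ξ η k0 := by
      rcases k0 with j | j <;> simp
    rw [this, hc, inv_mul_cancel₀ hk0]
  · rw [DD_smul, DD_smul]
    rintro ⟨ha, hb⟩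
    exact hσ ⟨(mul_eq_zero.mp ha).resolve_left hc0, (mul_eq_zero.mp hb).resolve_left hc0⟩

end Pool.Agent.PLG
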