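import Pool.Agent.Helper419.PL.Defs
import Pool.Agent.Helper419.PL.S_MEM
import Pool.Agent.Helper419.PL.S_TR

set_option autoImplicit false

/-! S00177 module G, lemma REL (board job). -/

open MvPolynomial

namespace Pool.Agent.PLG


theorem G_rel_ext (K M : Subfield ℂ) (S : Set ℂ) (hK : (K : Set ℂ) ⊆ M) (hS : S ⊆ M) (z : ℂ)
    (hz : IsAlgebraic (Algebra.adjoin K S) z) : IsAlgebraic M z := by
  have hle : ∀ w ∈ Algebra.adjoin K S, w ∈ M := by
    intro w hw
    induction hw using Algebra.adjoin_induction with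
    | mem x hx => exact hS hx
    | algebraMap r => exact hK r.2
    | add x y _ _ hx hy => exact add_mem hx hy
    | mul x y _ _ hx hy => exact mul_mem hx hy
  let g : Algebra.adjoin K S →+* M :=
    { toFun := fun w => ⟨w.1, hle w.1 w.2⟩
      map_one' := rfl
      map_mul' := fun _ _ => rfl
      map_zero' := rfl
      map_add' := fun _ _ => rfl }
  letI : Algebra (Algebra.adjoin K S) M := g.toAlgebra
  haveI : IsScalarTower (Algebra.adjoin K S) M ℂ := IsScalarTower.of_algebraMap_eq (fun w => rfl)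
  refine IsAlgebraic.extendScalars (R := Algebra.adjoin K S) (S := M) ?_ hz
  intro a b hab
  have : (g a : ℂ) = g b := congrArg Subtype.val hab
  exact Subtype.ext this

theorem G_rel_dep (K : Subfield ℂ) (y : Fin 2 ⊕ Fin 2 → ℂ) (F : MvPolynomial (Fin 2 ⊕ Fin 2) ℂ)
    (hF : F ≠ 0) (hFK : ∀ m, coeff m F ∈ K) (h : eval y F = 0) :
    ∃ k0 : Fin 2 ⊕ Fin 2, ∃ T : Set (Fin 2 ⊕ Fin 2), k0 ∉ T ∧
      IsAlgebraic (Algebra.adjoin K (y '' T)) (y k0) := by
  by_contra hcon
  push Not at hcon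
  have hind : AlgebraicIndependent K y := by
    refine algebraicIndependent_of_finite_type' (algebraMap K ℂ).injective ?_
    intro T _ _ i hi
    exact hcon i T hi
  have hr : F ∈ Set.range (MvPolynomial.map (σ := Fin 2 ⊕ Fin 2) (algebraMap K ℂ)) := by
    rw [mem_range_map_iff_coeffs_subset]
    intro c hc
    rw [Finset.mem_coe, mem_coeffs_iff] at hc
    obtain ⟨n, _, hn⟩ := hc
    exact ⟨⟨coeff n F, hFK n⟩, by rw [hn]; rfl⟩
  obtain ⟨G, hG⟩ := hr
  have hG0 : aeval y G = 0 := by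
    rw [aeval_def, ← eval_map, hG, h]
  have : G = 0 := by
    rw [algebraicIndependent_iff] at hind
    exact hind G hG0
  apply hF
  rw [← hG, this, map_zero]

theorem G_rel {K : Subfield ℂ} {x : Fin 4 → A2} {t : A2} {v : Fin 4 × Fin 3 → ℂ}
    (H : Dat K x t v) (p q : Fin 2 → ℂ) (hpq : p ≠ q)
    (h1 : ∀ i, eval p (xg v x t i) = eval q (xg v x t i))
    (F : MvPolynomial (Fin 2 ⊕ Fin 2) ℂ) (hF : F ≠ 0) (hFK : ∀ m, coeff m F ∈ K)
    (h : eval (Sum.elim p q) F = 0) : False := by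
  obtain ⟨k0, T, hk0, halg⟩ := G_rel_dep K (Sum.elim p q) F hF hFK h
  set y : Fin 2 ⊕ Fin 2 → ℂ := Sum.elim p q with hy
  let s : (Fin 4 × Fin 2) ⊕ {k : Fin 2 ⊕ Fin 2 // k ≠ k0} → ℂ :=
    Sum.elim (fun ij => v (ij.1, ij.2.succ)) (fun k => y k)
  refine tr_count K v H.hv s ?_ ?_
  · rw [Fintype.card_sum, Fintype.card_subtype_compl]
    simp
  set M : Subfield ℂ := Subfield.closure ((K : Set ℂ) ∪ Set.range s) with hM
  have hKM : (K : Set ℂ) ⊆ M := fun z hz => Subfield.subset_closure (Or.inl hz)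
  have hsM : ∀ a, s a ∈ M := fun a => Subfield.subset_closure (Or.inr ⟨a, rfl⟩)
  let L : Subfield ℂ := (algebraicClosure M ℂ).toSubfield
  have hL : ∀ z : ℂ, z ∈ L ↔ IsAlgebraic M z := fun z => by
    change z ∈ algebraicClosure M ℂ ↔ _
    exact mem_algebraicClosure_iff
  have hML : ∀ z ∈ M, z ∈ L := fun z hz => by
    rw [hL]
    exact isAlgebraic_algebraMap (⟨z, hz⟩ : M)
  have hyL : ∀ k, y k ∈ L := by
    intro k
    by_cases hk : k = k0
    · subst hk
      rw [hL]
      refine G_rel_ext K M (y '' T) hKM ?_ (y k) halg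
      rintro _ ⟨j, hj, rfl⟩
      have hjk : j ≠ k := fun e => hk0 (e ▸ hj)
      exact hsM (Sum.inr ⟨j, hjk⟩)
    · exact hML _ (hsM (Sum.inr ⟨k, hk⟩))
  have hp : ∀ j, p j ∈ L := fun j => hyL (Sum.inl j)
  have hq : ∀ j, q j ∈ L := fun j => hyL (Sum.inr j)
  have hv12 : ∀ i (j : Fin 2), v (i, j.succ) ∈ L := fun i j => hML _ (hsM (Sum.inl (i, j)))
  have hxL : ∀ i m, coeff m (x i) ∈ L := fun i m => hML _ (hKM (H.hx i m))
  have htL : ∀ m, coeff m t ∈ L := fun m => hML _ (hKM (H.ht m))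
  have htp := eval_mem L t htL p hp
  have htq := eval_mem L t htL q hq
  have hne : eval p t ≠ eval q t := by
    intro he
    apply hpq
    refine H.inj p q (fun i => ?_) he
    have := h1 i
    rw [eval_xg, eval_xg, he] at this
    linear_combination this
  rintro ⟨i, j⟩
  rw [← hL]
  refine Fin.cases ?_ (fun j' => hv12 i j') j
  have hxp := eval_mem L (x i) (hxL i) p hp
  have hxq := eval_mem L (x i) (hxL i) q hq
  have h10 := hv12 i 0
  have h20 := hv12 i 1
  have e1 : ((0 : Fin 2).succ : Fin 3) = 1 := rfl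
  have e2 : ((1 : Fin 2).succ : Fin 3) = 2 := rfl
  rw [e1] at h10
  rw [e2] at h20
  have hsub : eval p t - eval q t ≠ 0 := sub_ne_zero.2 hne
  have hval : v (i, 0) = (eval q (x i) - eval p (x i) +
      v (i, 1) * (eval q t ^ 2 - eval p t ^ 2) + v (i, 2) * (eval q t ^ 3 - eval p t ^ 3)) /
        (eval p t - eval q t) := by
    rw [eq_div_iff hsub]
    have := h1 i
    rw [eval_xg, eval_xg] at this
    linear_combination this
  rw [hval]
  refine div_mem (add_mem (add_mem (sub_mem hxq hxp) (mul_mem h10 (sub_mem ?_ ?_)))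
    (mul_mem h20 (sub_mem ?_ ?_))) (sub_mem htp htq)
  · exact pow_mem htq 2
  · exact pow_mem htp 2
  · exact pow_mem htq 3
  · exact pow_mem htp 3

end Pool.Agent.PLG
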