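import Pool.Agent.Helper419.PL.Defs
import Pool.Agent.Helper419.PL.S_MEM
import Pool.Agent.Helper419.PL.S_REL

set_option autoImplicit false

/-! S00177 module G, lemma Gd2 (board job). -/

open MvPolynomial

namespace Pool.Agent.PLG


theorem gd2_rename_mem (K : Subfield ℂ) (g : Fin 2 → Fin 2 ⊕ Fin 2) (hg : Function.Injective g)
    (f : A2) (hf : ∀ m, coeff m f ∈ K) : ∀ m, coeff m (rename g f) ∈ K := by
  intro m
  by_cases h : ∃ u : Fin 2 →₀ ℕ, Finsupp.mapDomain g u = m
  · obtain ⟨u, rfl⟩ := h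
    rw [coeff_rename_mapDomain g hg]
    exact hf u
  · rw [coeff_rename_eq_zero]
    · exact K.zero_mem
    · intro u hu
      exact absurd ⟨u, hu⟩ h

theorem gd2_mul_mem {σ : Type} (K : Subfield ℂ) (f g : MvPolynomial σ ℂ) (hf : ∀ m, coeff m f ∈ K)
    (hg : ∀ m, coeff m g ∈ K) : ∀ m, coeff m (f * g) ∈ K := by
  classical
  intro m
  rw [coeff_mul]
  exact sum_mem fun y _ => mul_mem (hf _) (hg _)

theorem gd2_sub_mem {σ : Type} (K : Subfield ℂ) (f g : MvPolynomial σ ℂ) (hf : ∀ m, coeff m f ∈ K)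
    (hg : ∀ m, coeff m g ∈ K) : ∀ m, coeff m (f - g) ∈ K := by
  intro m
  rw [coeff_sub]
  exact sub_mem (hf _) (hg _)

theorem gd2_jac_mem (K : Subfield ℂ) (f g : A2) (hf : ∀ m, coeff m f ∈ K)
    (hg : ∀ m, coeff m g ∈ K) : ∀ m, coeff m (jac f g) ∈ K := by
  unfold jac
  exact gd2_sub_mem K _ _
    (gd2_mul_mem K _ _ (pderiv_coeff_mem K f hf 0) (pderiv_coeff_mem K g hg 1))
    (gd2_mul_mem K _ _ (pderiv_coeff_mem K f hf 1) (pderiv_coeff_mem K g hg 0))

theorem gd2_dir (t : A2) (p ξ : Fin 2 → ℂ) (h : DD ξ t p = 0)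
    (hg : ¬ (∀ j, eval p (pderiv j t) = 0)) :
    ∃ l : ℂ, (∀ f : A2, DD ξ f p = l * eval p (jac t f)) ∧ (l = 0 → ξ = 0) := by
  simp only [DD, Fin.sum_univ_two] at h ⊢
  by_cases ha : eval p (pderiv 0 t) = 0
  · have hb : eval p (pderiv 1 t) ≠ 0 := by
      intro hb
      apply hg
      intro j
      fin_cases j
      · exact ha
      · exact hb
    have h1 : ξ 1 = 0 := by
      rw [ha, mul_zero, zero_add] at h
      exact (mul_eq_zero.1 h).resolve_right hb
    refine ⟨-(ξ 0 / eval p (pderiv 1 t)), ?_, ?_⟩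
    · intro f
      simp only [jac, map_sub, map_mul, ha, h1]
      field_simp
      ring
    · intro h0
      have h2 : ξ 0 = 0 := by
        rw [neg_eq_zero, div_eq_zero_iff] at h0
        exact h0.resolve_right hb
      funext j
      fin_cases j
      · exact h2
      · exact h1
  · have h1 : ξ 0 = -(ξ 1 * eval p (pderiv 1 t) / eval p (pderiv 0 t)) := by
      field_simp
      linear_combination h
    refine ⟨ξ 1 / eval p (pderiv 0 t), ?_, ?_⟩
    · intro f
      simp only [jac, map_sub, map_mul]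
      rw [h1]
      field_simp
      ring
    · intro h0
      have h2 : ξ 1 = 0 := by
        rw [div_eq_zero_iff] at h0
        exact h0.resolve_right ha
      funext j
      fin_cases j
      · simp only [h2] at h1
        simpa using h1
      · exact h2

theorem G_d2 {K : Subfield ℂ} {x : Fin 4 → A2} {t : A2} {v : Fin 4 × Fin 3 → ℂ}
    (H : Dat K x t v)
    (hli : ∀ a b : ℂ, C a * jac t (x 0) + C b * jac t (x 1) = 0 → a = 0 ∧ b = 0)
    (p q ξ η : Fin 2 → ℂ) (hpq : p ≠ q)
    (h1 : ∀ i, eval p (xg v x t i) = eval q (xg v x t i))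
    (h3 : DD ξ t p = 0) (h4 : DD η t q = 0)
    (h2 : ∀ i, DD ξ (x i) p = DD η (x i) q) : ξ = 0 ∧ η = 0 := by
  have hgrad : ∃ j, pderiv j t ≠ 0 := by
    by_contra hcon
    push Not at hcon
    have := hli 1 0 (by simp [jac, hcon])
    exact one_ne_zero this.1
  obtain ⟨j, hj⟩ := hgrad
  have hgp : ¬ (∀ j, eval p (pderiv j t) = 0) := by
    intro hz
    refine G_rel H p q hpq h1 (rename Sum.inl (pderiv j t)) ?_ ?_ ?_
    · intro h0
      apply hj
      apply rename_injective (R := ℂ) (Sum.inl : Fin 2 → Fin 2 ⊕ Fin 2) Sum.inl_injective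
      rw [h0, map_zero]
    · exact gd2_rename_mem K _ Sum.inl_injective _ (pderiv_coeff_mem K t H.ht j)
    · rw [eval_rename, Sum.elim_comp_inl]
      exact hz j
  have hgq : ¬ (∀ j, eval q (pderiv j t) = 0) := by
    intro hz
    refine G_rel H p q hpq h1 (rename Sum.inr (pderiv j t)) ?_ ?_ ?_
    · intro h0
      apply hj
      apply rename_injective (R := ℂ) (Sum.inr : Fin 2 → Fin 2 ⊕ Fin 2) Sum.inr_injective
      rw [h0, map_zero]
    · exact gd2_rename_mem K _ Sum.inr_injective _ (pderiv_coeff_mem K t H.ht j)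
    · rw [eval_rename, Sum.elim_comp_inr]
      exact hz j
  obtain ⟨l, hl1, hl2⟩ := gd2_dir t p ξ h3 hgp
  obtain ⟨μ, hm1, hm2⟩ := gd2_dir t q η h4 hgq
  by_cases hl0 : l = 0
  · have hξ := hl2 hl0
    refine ⟨hξ, H.imm q η ?_ h4⟩
    intro i
    rw [← h2 i, hl1, hl0, zero_mul]
  by_cases hm0 : μ = 0
  · have hη := hm2 hm0
    refine ⟨H.imm p ξ ?_ h3, hη⟩
    intro i
    rw [h2 i, hm1, hm0, zero_mul]
  exfalso
  have e0 : l * eval p (jac t (x 0)) = μ * eval q (jac t (x 0)) := by
    rw [← hl1, ← hm1]; exact h2 0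
  have e1 : l * eval p (jac t (x 1)) = μ * eval q (jac t (x 1)) := by
    rw [← hl1, ← hm1]; exact h2 1
  have e2 : eval p (jac t (x 0)) * eval q (jac t (x 1)) -
      eval p (jac t (x 1)) * eval q (jac t (x 0)) = 0 := by
    have : μ * (eval p (jac t (x 0)) * eval q (jac t (x 1)) -
      eval p (jac t (x 1)) * eval q (jac t (x 0))) = 0 := by
      linear_combination (-eval p (jac t (x 0))) * e1 + eval p (jac t (x 1)) * e0
    exact (mul_eq_zero.1 this).resolve_left hm0
  have k0 := gd2_jac_mem K t (x 0) H.ht (H.hx 0)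
  have k1 := gd2_jac_mem K t (x 1) H.ht (H.hx 1)
  refine G_rel H p q hpq h1
    (rename Sum.inl (jac t (x 0)) * rename Sum.inr (jac t (x 1)) -
      rename Sum.inl (jac t (x 1)) * rename Sum.inr (jac t (x 0))) ?_ ?_ ?_
  · intro h0
    have hJ1 : jac t (x 1) ≠ 0 := by
      intro hz
      have := hli 0 1 (by rw [hz]; simp)
      exact one_ne_zero this.2
    obtain ⟨q0, hq0⟩ : ∃ q0, eval q0 (jac t (x 1)) ≠ 0 := by
      by_contra hcon
      push Not at hcon
      exact hJ1 (MvPolynomial.funext fun y => by rw [hcon y, map_zero])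
    have hz : C (eval q0 (jac t (x 1))) * jac t (x 0) + C (-eval q0 (jac t (x 0))) * jac t (x 1) = 0 := by
      apply MvPolynomial.funext
      intro y
      have h5 := congrArg (eval (Sum.elim y q0)) h0
      simp only [map_sub, map_mul, eval_rename, Sum.elim_comp_inl, Sum.elim_comp_inr, map_zero] at h5
      simp only [map_add, map_mul, eval_C, map_zero]
      linear_combination h5
    exact hq0 (hli _ _ hz).1
  · exact gd2_sub_mem K _ _
      (gd2_mul_mem K _ _ (gd2_rename_mem K _ Sum.inl_injective _ k0)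
        (gd2_rename_mem K _ Sum.inr_injective _ k1))
      (gd2_mul_mem K _ _ (gd2_rename_mem K _ Sum.inl_injective _ k1)
        (gd2_rename_mem K _ Sum.inr_injective _ k0))
  · simp only [map_sub, map_mul, eval_rename, Sum.elim_comp_inl, Sum.elim_comp_inr]
    exact e2

end Pool.Agent.PLG
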