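import Pool.Agent.Helper419.PL.Defs
import Pool.Agent.Helper419.PL.S_TR

set_option autoImplicit false

/-! S00177 module G, lemma TR3 (board job). -/

open MvPolynomial

namespace Pool.Agent.PLG


/-- the point `y` is algebraic over `K(a)`: `a` (n numbers) and `b` (m numbers) are algebraically
independent over `K` and `a` lies in `K(b, s)` with `s` of size at most `n`; then each entry of `s`
is algebraic over `K(a, b)` -/
theorem tr_alg {ι κ σ : Type} [Fintype ι] [Fintype κ] [Fintype σ] (K : Subfield ℂ) (a : ι → ℂ)
    (b : σ → ℂ) (hv : AlgebraicIndependent K (Sum.elim a b)) (s : κ → ℂ)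
    (hc : Fintype.card κ ≤ Fintype.card ι)
    (h : ∀ i, a i ∈ Subfield.closure ((K : Set ℂ) ∪ (Set.range b ∪ Set.range s))) (k : κ) :
    IsAlgebraic (Subfield.closure ((K : Set ℂ) ∪ (Set.range a ∪ Set.range b))) (s k) := by
  classical
  by_contra hcon
  have hind : AlgebraicIndependent K (fun o : Option (ι ⊕ σ) => o.elim (s k) (Sum.elim a b)) := by
    rw [hv.option_iff_transcendental]
    intro halg
    apply hcon
    obtain ⟨p, hp0, hp⟩ := halg
    have hle : ∀ y ∈ Algebra.adjoin K (Set.range (Sum.elim a b)),
        y ∈ Subfield.closure ((K : Set ℂ) ∪ (Set.range a ∪ Set.range b)) := by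
      intro y hy
      induction hy using Algebra.adjoin_induction with
      | mem y hy =>
        apply Subfield.subset_closure
        right
        rwa [Set.Sum.elim_range] at hy
      | algebraMap r =>
        apply Subfield.subset_closure
        left
        exact r.2
      | add y z _ _ hy hz => exact add_mem hy hz
      | mul y z _ _ hy hz => exact mul_mem hy hz
    let φ : Algebra.adjoin K (Set.range (Sum.elim a b)) →+*
        Subfield.closure ((K : Set ℂ) ∪ (Set.range a ∪ Set.range b)) :=
      { toFun := fun y => ⟨y.1, hle y.1 y.2⟩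
        map_one' := rfl
        map_mul' := fun _ _ => rfl
        map_zero' := rfl
        map_add' := fun _ _ => rfl }
    have hφ : Function.Injective φ := by
      intro y z hyz
      apply Subtype.ext
      have h1 : (φ y).1 = (φ z).1 := by rw [hyz]
      exact h1
    refine ⟨p.map φ, (Polynomial.map_ne_zero_iff hφ).mpr hp0, ?_⟩
    rw [Polynomial.aeval_def, Polynomial.eval₂_map]
    rw [Polynomial.aeval_def] at hp
    exact hp
  refine tr_count K _ hind (Sum.elim b s) ?_ ?_
  · rw [Fintype.card_sum, Fintype.card_option, Fintype.card_sum]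
    omega
  · have hset : ((K : Set ℂ) ∪ (Set.range b ∪ Set.range s)) =
        ((K : Set ℂ) ∪ Set.range (Sum.elim b s)) := by
      rw [Set.Sum.elim_range]
    have hmem : ∀ o : Option (ι ⊕ σ), (o.elim (s k) (Sum.elim a b) : ℂ) ∈
        Subfield.closure ((K : Set ℂ) ∪ Set.range (Sum.elim b s)) := by
      intro o
      rcases o with _ | (i | j)
      · exact Subfield.subset_closure (Or.inr ⟨Sum.inr k, rfl⟩)
      · rw [← hset]
        exact h i
      · exact Subfield.subset_closure (Or.inr ⟨Sum.inl j, rfl⟩)
    intro o
    exact isAlgebraic_algebraMap (⟨_, hmem o⟩ : Subfield.closure ((K : Set ℂ) ∪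
      Set.range (Sum.elim b s)))

end Pool.Agent.PLG
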