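import Pool.Agent.Helper419.PL.Defs
import Pool.Agent.Helper419.PL.S_MEM
import Pool.Agent.Helper419.PL.S_TR3

set_option autoImplicit false

/-! S00177 module G, lemma Ge (board job). -/

open MvPolynomial

namespace Pool.Agent.PLG


theorem G_e {K : Subfield ℂ} {x : Fin 4 → A2} {t : A2} {v : Fin 4 × Fin 3 → ℂ}
    (H : Dat K x t v) (hK : (K : Set ℂ).Countable) :
    {p : Fin 2 → ℂ | ∃ q, q ≠ p ∧ ∀ i, eval p (xg v x t i) = eval q (xg v x t i)}.Countable := by
  classical
  let a : Fin 4 → ℂ := fun i => v (i, 0)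
  let b : Fin 4 × Fin 2 → ℂ := fun ij => v (ij.1, ij.2.succ)
  let M : Subfield ℂ := Subfield.closure ((K : Set ℂ) ∪ (Set.range a ∪ Set.range b))
  have hMc : Countable M := by
    have h1 : ((K : Set ℂ) ∪ (Set.range a ∪ Set.range b)).Countable :=
      hK.union ((Set.countable_range a).union (Set.countable_range b))
    have h2 := Subfield.cardinalMk_closure_le_max ((K : Set ℂ) ∪ (Set.range a ∪ Set.range b))
    rw [← Cardinal.mk_le_aleph0_iff]
    refine h2.trans (max_le ?_ le_rfl)
    exact Cardinal.mk_le_aleph0_iff.mpr h1.to_subtype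
  have hS : {z : ℂ | IsAlgebraic M z}.Countable := Algebraic.countable M ℂ
  have hP : {p : Fin 2 → ℂ | ∀ j, p j ∈ {z : ℂ | IsAlgebraic M z}}.Countable :=
    Set.countable_pi (fun _ => hS)
  refine hP.mono ?_
  rintro p ⟨q, hqp, hpq⟩
  have hτ : eval p t ≠ eval q t := by
    intro h
    apply hqp
    symm
    apply H.inj p q _ h
    intro i
    have h1 := hpq i
    rw [eval_xg, eval_xg, h] at h1
    exact add_right_cancel (add_right_cancel (add_right_cancel h1))
  let f : Fin 4 ⊕ (Fin 4 × Fin 2) → Fin 4 × Fin 3 := Sum.elim (fun i => (i, 0)) (fun ij => (ij.1, ij.2.succ))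
  have hf : Function.Injective f := by
    decide
  have hv : AlgebraicIndependent K (Sum.elim a b) := by
    have h1 := H.hv.comp f hf
    have h2 : v ∘ f = Sum.elim a b := by
      funext u
      rcases u with u | u <;> rfl
    rwa [h2] at h1
  let s : Fin 2 ⊕ Fin 2 → ℂ := Sum.elim p q
  have hc : Fintype.card (Fin 2 ⊕ Fin 2) ≤ Fintype.card (Fin 4) := by simp
  have hL : ∀ i, a i ∈ Subfield.closure ((K : Set ℂ) ∪ (Set.range b ∪ Set.range s)) := by
    intro i
    set L : Subfield ℂ := Subfield.closure ((K : Set ℂ) ∪ (Set.range b ∪ Set.range s)) with hLdef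
    have hKL : ∀ z, z ∈ K → z ∈ L := fun z hz => Subfield.subset_closure (Or.inl hz)
    have hbL : ∀ u, b u ∈ L := fun u => Subfield.subset_closure (Or.inr (Or.inl ⟨u, rfl⟩))
    have hsL : ∀ u, s u ∈ L := fun u => Subfield.subset_closure (Or.inr (Or.inr ⟨u, rfl⟩))
    have hpL : ∀ j, p j ∈ L := fun j => hsL (Sum.inl j)
    have hqL : ∀ j, q j ∈ L := fun j => hsL (Sum.inr j)
    have e1 : eval p (x i) ∈ L := eval_mem L (x i) (fun m => hKL _ (H.hx i m)) p hpL
    have e2 : eval q (x i) ∈ L := eval_mem L (x i) (fun m => hKL _ (H.hx i m)) q hqL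
    have e3 : eval p t ∈ L := eval_mem L t (fun m => hKL _ (H.ht m)) p hpL
    have e4 : eval q t ∈ L := eval_mem L t (fun m => hKL _ (H.ht m)) q hqL
    have e5 : v (i, 1) ∈ L := hbL (i, 0)
    have e6 : v (i, 2) ∈ L := hbL (i, 1)
    have h1 := hpq i
    rw [eval_xg, eval_xg] at h1
    have h2 : eval p t - eval q t ≠ 0 := sub_ne_zero.mpr hτ
    have h3 : a i = -(eval p (x i) - eval q (x i) + v (i, 1) * (eval p t ^ 2 - eval q t ^ 2) +
        v (i, 2) * (eval p t ^ 3 - eval q t ^ 3)) / (eval p t - eval q t) := by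
      rw [eq_div_iff h2]
      show v (i, 0) * (eval p t - eval q t) = _
      linear_combination h1
    rw [h3]
    exact L.div_mem (L.neg_mem (L.add_mem (L.add_mem (L.sub_mem e1 e2)
      (L.mul_mem e5 (L.sub_mem (L.pow_mem e3 2) (L.pow_mem e4 2))))
      (L.mul_mem e6 (L.sub_mem (L.pow_mem e3 3) (L.pow_mem e4 3))))) (L.sub_mem e3 e4)
  intro j
  exact tr_alg K a b hv s hc hL (Sum.inl j)


end Pool.Agent.PLG
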