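import Pool.Agent.Helper419.PL.Defs

set_option autoImplicit false

/-! S00177 module G, lemma IM (board job). -/

open MvPolynomial

namespace Pool.Agent.PLG


theorem imsj_C (ξ p : Fin 2 → ℂ) (a : ℂ) : DD ξ (C a) p = 0 := by
  simp [DD]

theorem imsj_add (ξ p : Fin 2 → ℂ) (f g : A2) : DD ξ (f + g) p = DD ξ f p + DD ξ g p := by
  simp [DD, mul_add]
  ring

theorem imsj_mul (ξ p : Fin 2 → ℂ) (f g : A2) :
    DD ξ (f * g) p = DD ξ f p * eval p g + eval p f * DD ξ g p := by
  simp [DD, Derivation.leibniz]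
  ring

theorem imsj_X (ξ p : Fin 2 → ℂ) (j : Fin 2) : DD ξ (X j) p = ξ j := by
  simp [DD, pderiv_X, Pi.single_apply, apply_ite]

theorem imsj_all (β : MvPolynomial (Fin 5) ℂ →ₐ[ℂ] A2)
    (p ξ : Fin 2 → ℂ) (h : ∀ i, DD ξ (β (X i)) p = 0) (P : MvPolynomial (Fin 5) ℂ) :
    DD ξ (β P) p = 0 := by
  induction P using MvPolynomial.induction_on with
  | C a =>
    have : β (C a) = C a := β.commutes a
    rw [this]
    exact imsj_C ξ p a
  | add P Q hP hQ => rw [map_add, imsj_add, hP, hQ, add_zero]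
  | mul_X P i hP => rw [map_mul, imsj_mul, hP, h i, zero_mul, mul_zero, add_zero]

theorem imm_of_surj (β : MvPolynomial (Fin 5) ℂ →ₐ[ℂ] A2) (hβ : Function.Surjective β)
    (p ξ : Fin 2 → ℂ) (h : ∀ i, DD ξ (β (X i)) p = 0) : ξ = 0 := by
  funext j
  obtain ⟨P, hP⟩ := hβ (X j)
  have h1 := imsj_all β p ξ h P
  rw [hP, imsj_X] at h1
  exact h1

theorem inj_of_surj (β : MvPolynomial (Fin 5) ℂ →ₐ[ℂ] A2) (hβ : Function.Surjective β)
    (p q : Fin 2 → ℂ) (h : ∀ i, eval p (β (X i)) = eval q (β (X i))) : p = q := by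
  have h1 : ∀ P : MvPolynomial (Fin 5) ℂ, eval p (β P) = eval q (β P) := by
    intro P
    induction P using MvPolynomial.induction_on with
    | C a =>
      have : β (C a) = C a := β.commutes a
      rw [this, eval_C, eval_C]
    | add P Q hP hQ => rw [map_add, map_add, map_add, hP, hQ]
    | mul_X P i hP => rw [map_mul, map_mul, map_mul, hP, h i]
  funext j
  obtain ⟨P, hP⟩ := hβ (X j)
  have h2 := h1 P
  rw [hP, eval_X, eval_X] at h2
  exact h2

end Pool.Agent.PLG
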