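import Pool.Agent.Helper419.PL.Defs

set_option autoImplicit false

/-! S00177 module G, lemma IND (board job). -/

open MvPolynomial

namespace Pool.Agent.PLG


theorem exists_indep (K : Subfield ℂ) (hK : (K : Set ℂ).Countable) :
    ∃ v : Fin 4 × Fin 3 → ℂ, AlgebraicIndependent K v := by
  obtain ⟨s, hs⟩ := exists_isTranscendenceBasis K ℂ
  have h1 : Cardinal.mk K ≤ Cardinal.aleph0 := by
    have : Countable (K : Set ℂ) := hK.to_subtype
    exact Cardinal.mk_le_aleph0_iff.mpr this
  have h2 : Cardinal.aleph0 < Cardinal.mk ℂ := by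
    rw [Cardinal.mk_complex]; exact Cardinal.aleph0_lt_continuum
  have h3 := IsAlgClosed.cardinal_eq_cardinal_transcendence_basis_of_aleph0_lt' _ hs h1 h2
  have h4 : Infinite s := by
    rw [Cardinal.infinite_iff, ← h3]; exact h2.le
  let e : (Fin 4 × Fin 3) ↪ s := (Fintype.equivFin (Fin 4 × Fin 3)).toEmbedding.trans
    ((Fin.valEmbedding).trans (Infinite.natEmbedding s))
  exact ⟨_, hs.1.comp e e.injective⟩

end Pool.Agent.PLG
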