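import Pool.Agent.Helper135.PL.Iface
import Pool.Agent.Helper419.PL.S_Gb
import Pool.Agent.Helper419.PL.S_Gc
import Pool.Agent.Helper419.PL.S_Gd1
import Pool.Agent.Helper419.PL.S_Gd2
import Pool.Agent.Helper419.PL.S_Ge
import Pool.Agent.Helper419.PL.S_CF
import Pool.Agent.Helper419.PL.S_Ga
import Pool.Agent.Helper419.PL.S_DEP
import Pool.Agent.Helper419.PL.S_IND
import Pool.Agent.Helper419.PL.S_CK
import Pool.Agent.Helper419.PL.S_IM
import Pool.Agent.Helper419.PL.S_AUT
import Pool.Agent.Helper419.PL.S_S1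

set_option autoImplicit false

/-! S00177, module G: assembly. -/

open MvPolynomial

namespace PL

open Pool.Agent.PLG

/-- the polynomials added to the coordinates -/
noncomputable def addP (v : Fin 4 × Fin 3 → ℂ) : Fin 5 → MvPolynomial (Fin 5) ℂ :=
  Fin.lastCases (motive := fun _ => MvPolynomial (Fin 5) ℂ) 0
    (fun i => C (v (i, 0)) * X (Fin.last 4) + C (v (i, 1)) * X (Fin.last 4) ^ 2 +
      C (v (i, 2)) * X (Fin.last 4) ^ 3)

theorem addP_last (v : Fin 4 × Fin 3 → ℂ) : addP v (Fin.last 4) = 0 := by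
  unfold addP
  rw [Fin.lastCases_last]

theorem addP_cast (v : Fin 4 × Fin 3 → ℂ) (i : Fin 4) : addP v (Fin.castSucc i) =
    C (v (i, 0)) * X (Fin.last 4) + C (v (i, 1)) * X (Fin.last 4) ^ 2 +
      C (v (i, 2)) * X (Fin.last 4) ^ 3 := by
  unfold addP
  rw [Fin.lastCases_castSucc]

theorem exists_theta (v : Fin 4 × Fin 3 → ℂ) :
    ∃ θ : MvPolynomial (Fin 5) ℂ ≃ₐ[ℂ] MvPolynomial (Fin 5) ℂ, ∀ i, θ (X i) = X i + addP v i := by
  refine exists_aut_add (addP v) ?_ ?_
  · intro i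
    refine Fin.lastCases ?_ (fun j => ?_) i
    · rw [addP_last]; exact map_zero _
    · rw [addP_cast]
      simp only [map_add, map_mul, map_pow, aeval_X, addP_last, add_zero, algHom_C, algebraMap_eq]
  · intro i
    refine Fin.lastCases ?_ (fun j => ?_) i
    · rw [addP_last]; exact map_zero _
    · rw [addP_cast]
      simp only [map_add, map_mul, map_pow, aeval_X, addP_last, sub_zero, algHom_C, algebraMap_eq]

theorem adjoin_top_of_surj (β : MvPolynomial (Fin 5) ℂ →ₐ[ℂ] AA) (hβ : Function.Surjective β) :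
    Algebra.adjoin ℂ (insert (β (X (Fin.last 4))) (Set.range fun i : Fin 4 => β (X (Fin.castSucc i)))) = ⊤ := by
  rw [eq_top_iff]
  intro a ha
  clear ha
  obtain ⟨f, rfl⟩ := hβ a
  induction f using MvPolynomial.induction_on with
  | C c =>
    have : β (C c) = algebraMap ℂ AA c := by
      rw [← MvPolynomial.algebraMap_eq]; exact β.commutes c
    rw [this]
    exact Subalgebra.algebraMap_mem _ _
  | add p q hp hq => rw [map_add]; exact Subalgebra.add_mem _ hp hq
  | mul_X p i hp =>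
    rw [map_mul]
    refine Subalgebra.mul_mem _ hp ?_
    refine Fin.lastCases ?_ (fun j => ?_) i
    · exact Algebra.subset_adjoin (Set.mem_insert _ _)
    · exact Algebra.subset_adjoin (Set.mem_insert_of_mem _ ⟨j, rfl⟩)

theorem coeff_mem_of (K : Subfield ℂ) {σ : Type} [DecidableEq σ] (f : MvPolynomial σ ℂ) (S : Finset ℂ)
    (hS : ∀ s ∈ S, s ∈ K) (h : f.support.image (fun m => coeff m f) ⊆ S) (m : σ →₀ ℕ) :
    coeff m f ∈ K := by
  by_cases hm : m ∈ f.support
  · exact hS _ (h (Finset.mem_image.mpr ⟨m, hm, rfl⟩))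
  · rw [MvPolynomial.notMem_support_iff.mp hm]; exact K.zero_mem

/-- MODULE G -/
theorem modG (α : MvPolynomial (Fin 5) ℂ →ₐ[ℂ] AA) (hα : Function.Surjective α) :
    ∃ θ : MvPolynomial (Fin 5) ℂ ≃ₐ[ℂ] MvPolynomial (Fin 5) ℂ,
      GoodPos (fun i : Fin 4 => α (θ (X (Fin.castSucc i)))) (α (θ (X (Fin.last 4)))) := by
  classical
  obtain ⟨θ₁, hli⟩ := exists_step1 α hα
  set β : MvPolynomial (Fin 5) ℂ →ₐ[ℂ] AA := α.comp θ₁.toAlgHom with hβdef
  have hβ : Function.Surjective β := hα.comp θ₁.surjective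
  set x : Fin 4 → AA := fun i => β (X (Fin.castSucc i)) with hx
  set t : AA := β (X (Fin.last 4)) with ht
  obtain ⟨F, hF, hFe⟩ := exists_rel (x 0) (x 1) t
  set S : Finset ℂ := (Finset.univ.biUnion fun i : Fin 4 => (x i).support.image (fun m => coeff m (x i))) ∪
    (t.support.image (fun m => coeff m t) ∪ F.support.image (fun m => coeff m F)) with hS
  obtain ⟨K, hK, hSK⟩ := exists_K S
  obtain ⟨v, hv⟩ := exists_indep K hK
  have hFK : ∀ m, coeff m F ∈ K := coeff_mem_of K F S hSK (by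
    intro c hc; rw [hS]; exact Finset.mem_union_right _ (Finset.mem_union_right _ hc))
  have H : Dat K x t v := by
    refine ⟨fun i => coeff_mem_of K (x i) S hSK ?_, coeff_mem_of K t S hSK ?_, hv, ?_, ?_⟩
    · intro c hc; rw [hS]
      exact Finset.mem_union_left _ (Finset.mem_biUnion.mpr ⟨i, Finset.mem_univ _, hc⟩)
    · intro c hc; rw [hS]; exact Finset.mem_union_right _ (Finset.mem_union_left _ hc)
    · intro p ξ h1 h2
      refine imm_of_surj β hβ p ξ fun i => ?_
      refine Fin.lastCases ?_ (fun j => ?_) i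
      · exact h2
      · exact h1 j
    · intro p q h1 h2
      refine inj_of_surj β hβ p q fun i => ?_
      refine Fin.lastCases ?_ (fun j => ?_) i
      · exact h2
      · exact h1 j
  obtain ⟨θ₂, hθ₂⟩ := exists_theta v
  have hlast : α (θ₁ (θ₂ (X (Fin.last 4)))) = t := by
    rw [hθ₂, addP_last, add_zero]; rfl
  have hcast : ∀ i : Fin 4, α (θ₁ (θ₂ (X (Fin.castSucc i)))) = xg v x t i := by
    intro i
    have e : α (θ₁ (θ₂ (X (Fin.castSucc i)))) = β (X (Fin.castSucc i) + addP v (Fin.castSucc i)) := by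
      rw [hθ₂]; rfl
    rw [e, addP_cast]
    have hC : ∀ c : ℂ, β (C c) = C c := fun c => by
      rw [← MvPolynomial.algebraMap_eq, ← MvPolynomial.algebraMap_eq]; exact β.commutes c
    simp only [map_add, map_mul, map_pow, hC]
    unfold xg
    rw [hx, ht]
    ring
  refine ⟨θ₂.trans θ₁, ?_⟩
  have e1 : (fun i : Fin 4 => α ((θ₂.trans θ₁) (X (Fin.castSucc i)))) = xg v x t := funext hcast
  have e2 : α ((θ₂.trans θ₁) (X (Fin.last 4))) = t := hlast
  have hgen := adjoin_top_of_surj (α.comp (θ₂.trans θ₁).toAlgHom) (hα.comp (θ₂.trans θ₁).surjective)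
  have hgen' : Algebra.adjoin ℂ (insert (α ((θ₂.trans θ₁) (X (Fin.last 4))))
    (Set.range fun i : Fin 4 => α ((θ₂.trans θ₁) (X (Fin.castSucc i))))) = ⊤ := hgen
  rw [e1, e2] at hgen'
  rw [e1, e2]
  refine ⟨hgen', G_a hv F hF hFK hFe, fun p ξ h => G_b H p ξ h, ?_, ?_, double_finite _ (G_e H hK)⟩
  · intro p q r h1 h2
    by_contra hcon
    push Not at hcon
    exact G_c H p q r hcon.1 hcon.2.1 hcon.2.2 h1 h2
  · intro p q ξ η hpq h1 h2
    obtain ⟨h3, h4⟩ := G_d1 H p q ξ η hpq h1 h2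
    refine G_d2 H hli p q ξ η hpq h1 h3 h4 fun i => ?_
    have h5 : DD ξ (xg v x t i) p = DD η (xg v x t i) q := h2 i
    rw [DD_xg, DD_xg, h3, h4, mul_zero, mul_zero, add_zero, add_zero] at h5
    exact h5

end PL
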