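import Pool.Agent.Helper419.PL.Defs
import Pool.Agent.Helper419.PL.S_IM
import Pool.Agent.Helper419.PL.S_AUT

set_option autoImplicit false

/-! S00177 module G, lemma S1 (board job). -/

open MvPolynomial

namespace Pool.Agent.PLG


theorem exists_step1 (α : MvPolynomial (Fin 5) ℂ →ₐ[ℂ] A2) (hα : Function.Surjective α) :
    ∃ θ : MvPolynomial (Fin 5) ℂ ≃ₐ[ℂ] MvPolynomial (Fin 5) ℂ,
      ∀ a b : ℂ, C a * jac (α (θ (X 4))) (α (θ (X 0))) +
        C b * jac (α (θ (X 4))) (α (θ (X 1))) = 0 → a = 0 ∧ b = 0 := by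
  obtain ⟨i, j, hij⟩ : ∃ i j, jac (α (X i)) (α (X j)) ≠ 0 := by
    by_contra hcon
    push Not at hcon
    have hev : ∀ i j, eval (0 : Fin 2 → ℂ) (pderiv 0 (α (X i))) *
        eval (0 : Fin 2 → ℂ) (pderiv 1 (α (X j))) -
        eval (0 : Fin 2 → ℂ) (pderiv 1 (α (X i))) *
        eval (0 : Fin 2 → ℂ) (pderiv 0 (α (X j))) = 0 := by
      intro i j
      have h0 := congrArg (eval (0 : Fin 2 → ℂ)) (hcon i j)
      rw [jac, map_sub, map_mul, map_mul, map_zero] at h0
      exact h0
    have h1 : ∀ i, (![-(eval (0 : Fin 2 → ℂ) (pderiv 1 (α (X i)))),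
        eval (0 : Fin 2 → ℂ) (pderiv 0 (α (X i)))] : Fin 2 → ℂ) = 0 := by
      intro i
      apply imm_of_surj α hα 0
      intro j
      simp only [DD, Fin.sum_univ_two, Matrix.cons_val_zero, Matrix.cons_val_one]
      linear_combination hev i j
    have h2 : (fun _ => 1 : Fin 2 → ℂ) = 0 := by
      apply imm_of_surj α hα 0
      intro j
      have h3 := congrFun (h1 j) 0
      have h4 := congrFun (h1 j) 1
      simp only [Matrix.cons_val_zero, Matrix.cons_val_one, Pi.zero_apply, neg_eq_zero] at h3 h4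
      simp only [DD, Fin.sum_univ_two, h3, h4]
      ring
    have h5 := congrFun h2 0
    simp at h5
  have hne : i ≠ j := by
    rintro rfl
    apply hij
    simp only [jac]
    ring
  obtain ⟨σ, hσ4, hσ1⟩ : ∃ σ : Equiv.Perm (Fin 5), σ 4 = i ∧ σ 1 = j := by
    refine ⟨Equiv.swap (Equiv.swap 4 i 1) j * Equiv.swap 4 i, ?_, ?_⟩
    · rw [Equiv.Perm.mul_apply, Equiv.swap_apply_left]
      apply Equiv.swap_apply_of_ne_of_ne
      · intro h
        have h' : Equiv.swap 4 i 4 = Equiv.swap 4 i 1 := by
          rw [Equiv.swap_apply_left]; exact h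
        have := (Equiv.swap 4 i).injective h'
        exact absurd this (by decide)
      · exact hne
    · rw [Equiv.Perm.mul_apply, Equiv.swap_apply_left]
  obtain ⟨θ₁, hθ₁⟩ := exists_aut_perm σ
  have hJ : jac (α (θ₁ (X 4))) (α (θ₁ (X 1))) ≠ 0 := by
    rw [hθ₁, hθ₁, hσ4, hσ1]; exact hij
  by_cases hlam : ∃ l : ℂ, jac (α (θ₁ (X 4))) (α (θ₁ (X 0))) =
      C l * jac (α (θ₁ (X 4))) (α (θ₁ (X 1)))
  · obtain ⟨l, hl⟩ := hlam
    obtain ⟨θ₂, hθ₂⟩ := exists_aut_add (fun i => if i = 0 then X 1 ^ 2 else 0)
      (by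
        intro i
        by_cases hi : i = 0
        · subst hi
          simp
        · simp [hi])
      (by
        intro i
        by_cases hi : i = 0
        · subst hi
          simp
        · simp [hi])
    have e4 : θ₂ (X 4) = X 4 := by
      rw [hθ₂]; simp
    have e1 : θ₂ (X 1) = X 1 := by
      rw [hθ₂]; simp
    have e0 : θ₂ (X 0) = X 0 + X 1 ^ 2 := by
      rw [hθ₂]; simp
    refine ⟨θ₂.trans θ₁, ?_⟩
    intro a b hab
    rw [AlgEquiv.trans_apply, AlgEquiv.trans_apply, AlgEquiv.trans_apply, e4, e1, e0] at hab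
    set t := α (θ₁ (X 4)) with ht
    set z := α (θ₁ (X 1)) with hz
    have hz0 : α (θ₁ (X 0 + X 1 ^ 2)) = α (θ₁ (X 0)) + z ^ 2 := by
      rw [map_add, map_add, map_pow, map_pow]
    set w := α (θ₁ (X 0)) with hw
    have hjac : jac t (w + z ^ 2) = jac t w + 2 * z * jac t z := by
      simp only [jac, map_add, Derivation.leibniz_pow, smul_eq_mul, nsmul_eq_mul]
      push_cast
      ring
    rw [hz0, hjac, hl] at hab
    have hprod : (C a * (C l + 2 * z) + C b) * jac t z = 0 := by
      linear_combination hab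
    have hfac : C a * (C l + 2 * z) + C b = 0 := by
      rcases mul_eq_zero.mp hprod with h | h
      · exact h
      · exact absurd h hJ
    have ha : a = 0 := by
      by_contra ha
      apply hJ
      have hd : ∀ k : Fin 2, pderiv k z = 0 := by
        intro k
        have h6 : C (a * 2) * z = - C (a * l + b) := by
          simp only [C_mul, C_add, map_ofNat]
          linear_combination hfac
        have h7 := congrArg (pderiv k) h6
        rw [Derivation.leibniz, map_neg, pderiv_C, pderiv_C, smul_zero, add_zero, neg_zero,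
          smul_eq_mul] at h7
        rcases mul_eq_zero.mp h7 with h | h
        · exfalso
          have h8 : a * 2 = 0 := by
            have := C_injective (Fin 2) ℂ (a₁ := a * 2) (a₂ := 0) (by rw [h, C_0])
            exact this
          rcases mul_eq_zero.mp h8 with h | h
          · exact ha h
          · norm_num at h
        · exact h
      simp only [jac, hd]
      ring
    refine ⟨ha, ?_⟩
    rw [ha, C_0, zero_mul, zero_add] at hfac
    exact C_injective (Fin 2) ℂ (by rw [hfac, C_0])
  · refine ⟨θ₁, ?_⟩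
    intro a b hab
    have ha : a = 0 := by
      by_contra ha
      apply hlam
      refine ⟨-b / a, ?_⟩
      have h9 : (C a : A2) ≠ 0 := by
        intro h
        exact ha (C_injective (Fin 2) ℂ (by rw [h, C_0]))
      apply mul_left_cancel₀ h9
      rw [← mul_assoc, ← C_mul]
      have h10 : a * (-b / a) = -b := by field_simp
      rw [h10, C_neg]
      linear_combination hab
    refine ⟨ha, ?_⟩
    rw [ha, C_0, zero_mul, zero_add] at hab
    rcases mul_eq_zero.mp hab with h | h
    · exact C_injective (Fin 2) ℂ (by rw [h, C_0])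
    · exact absurd h hJ

end Pool.Agent.PLG
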